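import Mathlib

/-!
Project SF (helper87, full answer (NO) of MP_af3eb4_an): upper semi-Fredholm spectra of
weighted composition operators on the disc algebra.  `B(z) = z^4`; infinitely many isolated
periodic orbits of `z ↦ z^4`; a weight with logarithmic zeros.
-/

set_option autoImplicit false

namespace Pool.Agent.Q87.SF

open Filter Topology Metric

/-- the disc algebra, a closed subspace of the continuous functions on the closed disc -/
def DA : Submodule ℂ C(closedBall (0 : ℂ) 1, ℂ) where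
  carrier := {f | ∃ F : ℂ → ℂ, DifferentiableOn ℂ F (ball 0 1) ∧
    ∀ z : closedBall (0 : ℂ) 1, f z = F z}
  add_mem' := by
    rintro f g ⟨F, hF, hF'⟩ ⟨G, hG, hG'⟩
    exact ⟨F + G, hF.add hG, fun z => by simp [hF', hG']⟩
  zero_mem' := ⟨0, differentiableOn_const 0, fun z => by simp⟩
  smul_mem' := by
    rintro c f ⟨F, hF, hF'⟩
    exact ⟨fun z => c * F z, hF.const_mul c, fun z => by simp [hF']⟩

/-- `T f = w (f ∘ B)` -/
def IsWC (B : ℂ → ℂ) (w : DA) (T : DA →L[ℂ] DA) : Prop :=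
  ∀ (f : DA) (z z' : closedBall (0 : ℂ) 1), (z' : ℂ) = B z → (T f).1 z = w.1 z * f.1 z'

/-- the upper semi-Fredholm spectrum, by singular sequences -/
def usf (T : DA →L[ℂ] DA) : Set ℂ :=
  {l | ∃ x : ℕ → DA, (∀ n, ‖x n‖ = 1) ∧
    (∀ φ : ℕ → ℕ, StrictMono φ → ∀ y : DA, ¬ Tendsto (fun n => x (φ n)) atTop (𝓝 y)) ∧
    Tendsto (fun n => T (x n) - l • x n) atTop (𝓝 0)}

/-- the set of radii of the circles in the upper semi-Fredholm spectrum -/
def Lam (T : DA →L[ℂ] DA) : Set ℝ :=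
  {ρ | 0 ≤ ρ ∧ ∀ l : ℂ, ‖l‖ = ρ → l ∈ usf T}

/-- finite Blaschke products of degree `d` -/
def IsBlaschke (B : ℂ → ℂ) (d : ℕ) : Prop :=
  ∃ (θ : ℝ) (a : Fin d → ℂ), (∀ j, ‖a j‖ < 1) ∧
    ∀ z, B z = Complex.exp (θ * Complex.I) * ∏ j, (z - a j) / (1 - starRingEnd ℂ (a j) * z)

/-- elliptic: a fixed point in the open disc -/
def Elliptic (B : ℂ → ℂ) : Prop := ∃ z₀ : ℂ, ‖z₀‖ < 1 ∧ B z₀ = z₀

/-! ### Job SF-W: a function with prescribed logarithmic zeros -/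

/-- the modulus of the partial products -/
noncomputable def PP (m : ℕ → ℕ) (ζ : ℕ → ℕ → ℂ) (α : ℕ → ℝ) (J : ℕ) (z : ℂ) : ℝ :=
  ∏ j ∈ Finset.range J, ∏ a ∈ Finset.range (m j), (‖z - ζ j a‖ / 2) ^ (α j)

/-- JOB SF-W.
Proof.  `Z` = closure of the set of all `ζ j a`, `a < m j`; it lies on the unit circle.
`G(z) = ∑_j α_j ∑_{a < m j} log ((1 - conj(ζ j a) z)/2)` (complex principal logarithm; for
`|z| ≤ 1`, `z ≠ ζ j a` the argument has nonnegative real part and is not 0, so it lies in the slit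
plane).  `‖1 - conj ζ z‖ = ‖z - ζ‖` for `‖ζ‖ = 1`.  On the set of all `z` in the closed disc at
distance `≥ δ` from `Z` the `j`-th term is bounded by `α_j m_j (log (2/δ) + log 2 + π)`, so the
series converges uniformly: `G` is continuous on (closed disc) minus `Z` and holomorphic in the
open disc.  `w(z) = exp (G z)` for `z ∉ Z`, `w(z) = 0` for `z ∈ Z`.
Modulus: all factors of `PP` are in `[0,1]`, so `PP` is nonincreasing in `J`; for `z ∉ Z`
`‖w z‖ = exp (Re G) = lim PP = ⨅ PP` (`log` of `PP` is the partial sum of `Re G`), for `z ∈ Z`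
the infimum is `0` by the hypothesis.  Continuity at `z₀ ∈ Z`: given `ε` choose `J` with
`PP J z₀ < ε`; `PP J` is continuous, so `‖w z‖ ≤ PP J z < ε` near `z₀`. -/
def S_W : Prop := ∀ (m : ℕ → ℕ) (ζ : ℕ → ℕ → ℂ) (α : ℕ → ℝ),
  (∀ j a, ‖ζ j a‖ = 1) → (∀ j, 0 < α j) → Summable (fun j => α j * m j) →
  (∀ z ∈ closure {x : ℂ | ∃ j a, a < m j ∧ x = ζ j a}, ∀ ε > 0, ∃ J, PP m ζ α J z < ε) →
  ∃ w : DA, ∀ z : closedBall (0 : ℂ) 1, ‖w.1 z‖ = ⨅ J, PP m ζ α J z

/-! ### Job SF-SPEC: an isolated periodic orbit gives a circle -/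

/-- JOB SF-SPEC.
Proof.  `w_k(z) = ∏_{j<k} w(z^(4^j))`, `(T^k g)(z) = w_k(z) g(z^(4^k))`.  Let `r = ‖l‖ > 0`.
(1) If `z^(4^k) = t 0` then `w_k(z) = 0` or `z = t (k (p-1))` (the `k`-th preimage in the orbit, as
`t` has period `p`); induction on `k` (the last step: a fourth root of `t n` is
`I^i * t (n + p - 1)`, and for `i = 1,2,3` it is a zero of `w`).  On the orbit
`c r^k ≤ ‖w_k(t (k (p-1)))‖ ≤ C r^k` with `0 < c ≤ C`, because
`∏_{n<p} ‖w (t n)‖ = r^p`.  So `M_k(t 0) ≤ C r^k`, where `M_k(τ)` is the maximum of `‖w_k(z)‖`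
over `z^(4^k) = τ`.
(2) Fix `K ≥ 2` and `k₀ = K/2`.  By continuity of the `w_k` (`k ≤ K+1`) there is `τ`, `‖τ‖ = 1`,
close to `t 0`, with `M_k(τ) ≤ 2 C r^k` for `k ≤ K+1`, a point `z*` with `z*^(4^k₀) = τ`
and `‖w_k₀(z*)‖ ≥ (c/2) r^k₀`, and `τ^(4^m) ≠ τ` for `1 ≤ m ≤ K+1` (finitely many points are
excluded), so the sets `{z : z^(4^k) = τ}`, `k ≤ K+1`, are pairwise disjoint.
(3) `g_N(z) = ((1 + conj τ z)/2)^N`, `‖g_N‖ ≤ 1`, `g_N(τ) = 1`, `g_N → 0` uniformly off any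
neighbourhood of `τ` in the closed disc.  For coefficients `b_k` (`k ≤ K+1`):
`limsup_N ‖∑ b_k T^k g_N‖ ≤ max_k ‖b_k‖ M_k(τ)`: the sets `V_k = {‖z^(4^k) - τ‖ < η}` are
pairwise disjoint for small `η`, on `V_k` `‖w_k‖ ≤ M_k(τ) + ε`, off `V_k` `g_N(z^(4^k))` is small.
(4) `f = ∑_{k ≤ K} a_k l^(-k) T^k g_N`, `a` the tent with `a_{k₀} = 1`, `a_0 = a_{K+1} = 0`,
`|a_{k-1} - a_k| ≤ 4/K`:
`(T - l) f = ∑_k (a_{k-1} - a_k) l^(1-k) T^k g_N` has norm `≤ (4/K) r · 2C + 1/K` for large `N`,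
and `‖f‖ ≥ ‖f z*‖ ≥ c/4` for large `N`.  Also `|f(z)| ≤ 1/K` for `|z| ≤ 1 - 1/K` and large `N`.
Normalise: `x_K = f/‖f‖`; `x_K → 0` pointwise in the open disc and `‖x_K‖ = 1`, so no subsequence
converges (the limit would vanish in the open disc, hence on the closed disc). -/
def S_SPEC : Prop := ∀ (w : DA) (T : DA →L[ℂ] DA), IsWC (fun z => z ^ 4) w T →
  ∀ (p : ℕ) (t : ℕ → closedBall (0 : ℂ) 1), 0 < p → (∀ n, ‖(t n : ℂ)‖ = 1) →
    (∀ n, t (n + p) = t n) → (∀ n, ((t n : ℂ)) ^ 4 = t (n + 1)) → (∀ n, w.1 (t n) ≠ 0) →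
    (∀ n, ∀ i ∈ Finset.Icc 1 3, ∀ z : closedBall (0 : ℂ) 1, (z : ℂ) = Complex.I ^ i * t n →
      w.1 z = 0) →
    ∀ l : ℂ, ‖l‖ ^ p = ∏ n ∈ Finset.range p, ‖w.1 (t n)‖ → l ∈ usf T

/-! ### The orbits -/

/-- letters (0 or 1) of the period doubling sequence cut at level `j` -/
def ep : ℕ → ℕ → ℕ
  | 0, _ => 0
  | (j + 1), n => if n % 2 = 1 then 0 else 1 - ep j (n / 2)

/-- the point with the base four digits `1 + ep j (n + k)` -/
noncomputable def Y (j n : ℕ) : ℝ := ∑' k : ℕ, (1 + (ep j (n + k) : ℝ)) / 4 ^ (k + 1)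

noncomputable def ee (y : ℝ) : ℂ := Complex.exp (2 * Real.pi * y * Complex.I)

/-- the siblings of the points of the `j`-th orbit: `I^(i+1) ee(Y j n)`, `n = a/3`, `i = a%3` -/
noncomputable def zt (j a : ℕ) : ℂ := Complex.I ^ (a % 3 + 1) * ee (Y j (a / 3))

def mm (j : ℕ) : ℕ := 3 * 2 ^ j

noncomputable def al (j : ℕ) : ℝ := 1 / (((j : ℝ) + 1) ^ 2 * 2 ^ j)

/-- JOB SF-PER (basic facts). Induction on `j` for the first two; then shift the series. -/
def S_PER : Prop := (∀ j n, ep j (n + 2 ^ j) = ep j n) ∧ (∀ j n, ep j n = 0 ∨ ep j n = 1) ∧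
  (∀ j n, Y j (n + 2 ^ j) = Y j n) ∧
  (∀ j n, 4 * Y j n = 1 + (ep j n : ℝ) + Y j (n + 1)) ∧
  (∀ j n, 1 / 3 ≤ Y j n ∧ Y j n ≤ 2 / 3) ∧ (∀ j n, ee (Y j n) ^ 4 = ee (Y j (n + 1))) ∧
  (∀ y, ‖ee y‖ = 1)

/-- JOB SF-CLOSE. Common prefixes give close points (the digits differ by at most 1). -/
def S_CLOSE : Prop := ∀ i j n m L : ℕ, (∀ l < L, ep i (n + l) = ep j (m + l)) →
  |Y i n - Y j m| ≤ 1 / (3 * 4 ^ L)

/-- JOB SF-OCC. Every word of length `2^q` of level `i ≥ q+2` occurs at least `2^(j-q-2)` times in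
one period of level `j ≥ q+2`.
Proof.  Facts by induction on `q`: (a) if `2^q` does not divide `n`, `m ≡ n mod 2^q` and
`i, j ≥ q`, then `ep j m = ep i n`; (b) `ep (q+j) (2^q * k) = ep j k` for even `q` and
`= 1 - ep j k` for odd `q`; (c) `ep j k = 0` for odd `k`, and `ep (j+1) k = 1` for `k ≡ 2 mod 4`.
Let `l₀ < 2^q` with `2^q ∣ n + l₀`.  By (b), (c) there is `κ ∈ {1,2}` such that
`ep j (2^q (4 a + κ)) = ep i (n + l₀)` for all `a` and all `j ≥ q+2`.  The `m < 2^j` with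
`m + l₀ ≡ 2^q (4a+κ) mod 2^j`, `a < 2^(j-q-2)`, have the property: at `l₀` by the choice of `κ`
(and the periodicity `ep j (n + 2^j) = ep j n`), at the other `l < 2^q` by (a). -/
def S_OCC : Prop := ∀ q i j n : ℕ, q + 2 ≤ i → q + 2 ≤ j →
  2 ^ (j - q - 2) ≤ ((Finset.range (2 ^ j)).filter
    (fun m => ∀ l < 2 ^ q, ep i (n + l) = ep j (m + l))).card

/-- JOB SF-NP. Different levels give different points.
Proof.  Equal points have equal digits (`4 Y = 1 + ep + Y'`, all `Y` in `[1/3, 2/3]`, so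
`1 + ep j n` is the integral part of `4 Y j n`), so `ep i (n+l) = ep j (m+l)` for all `l`.
The left side has period `2^i` in `l`.  But choose `l` with `m + l = 2^i (4a+1)`; then
`m + l + 2^i = 2^i (4a+2)`, and `ep j` has different values at these two places
(facts (b), (c) of SF-OCC, `j ≥ i+1`). -/
def S_NP : Prop := ∀ i j n m : ℕ, i < j → ee (Y i n) ≠ ee (Y j m)

/-- JOB SF-LOW. the potential is infinite on the closure of the zeros.
Proof.  If `z = zt j a`, then `PP mm zt al (j+1) z = 0`.  Otherwise (finite sets are closed) `z` is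
the limit of points `zt j_l a_l` with `j_l → ∞`, and for a subsequence `a_l % 3 = i` is constant.
Fix `j` and `q ≤ j - 2`.  For large `l`, `|zt j_l a_l - z| ≤ 4^(-2^q)`, and the word of length
`2^q` at `n = a_l / 3` in level `j_l` occurs in level `j` at `≥ 2^(j-q-2)` places `m < 2^j`
(S_OCC); there `|zt j_l a_l - zt j (3m+i)| ≤ 2π |Y j_l n - Y j m| ≤ 2π/3 4^(-2^q)` (S_CLOSE),
so `|z - zt j (3m+i)| ≤ 4 · 4^(-2^q)`.  One word of length `2^(j-2)` serves all `q ≤ j-2`: let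
`S_q` be the set of the `m` with agreement on the first `2^q` letters (decreasing in `q`).  Then
`log (2/|z - zt j (3m+i)|) ≥ ∑_{1 ≤ q ≤ j-2, m ∈ S_q} 2^(q-1) log 4` (if `Q` is the largest such
`q` the right side is `(2^Q - 1) log 4` and the left side is at least `2^Q log 4 - log 2`), and
the sum over `m` is at least `∑_q 2^(q-1) 2^(j-q-2) log 4 = (j-2) 2^(j-3) log 4`.  All the other
factors of `PP` are in `[0,1]`, so `-log PP mm zt al J z ≥ ∑_{3 ≤ j < J} al j (j-2) 2^(j-3) log 4`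
`= (log 4 / 8) ∑_{3 ≤ j < J} (j-2)/(j+1)^2`, which tends to infinity. -/
def S_LOW : Prop := ∀ z ∈ closure {x : ℂ | ∃ j a, a < mm j ∧ x = zt j a}, ∀ ε > 0,
  ∃ J, PP mm zt al J z < ε

/-- the number of coincidences of the `i`-th orbit with itself -/
noncomputable def kap (i : ℕ) : ℕ := by
  classical
  exact ((Finset.range (2 ^ i) ×ˢ Finset.range (2 ^ i)).filter
    (fun x : ℕ × ℕ => ee (Y i x.1) = ee (Y i x.2))).card

/-- JOB SF-UPX. exact value of the products over the orbits.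
Proof.  With `t n = ee (Y i n)`, `s m = ee (Y j m)`: `∏_{k=1}^3 (t - I^k s) = (t^4 - s^4)/(t - s)` for
`t ≠ s`, and `= 4 t^3` for `t = s`.  Let `D` be the product of `‖t n - s m‖` over the pairs
`(n,m)` in `[0,2^i) × [0,2^j)` with `t n ≠ s m`.  As `t n ^ 4 = t (n+1)`, `s m ^ 4 = s (m+1)` and
`(n,m) ↦ (n+1,m+1)` permutes the pairs (periodicity) and preserves `t n ≠ s m` (`t n = s m`
gives `t (n+1) = s (m+1)`; conversely go around the period), the product of the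
`‖t^4 - s^4‖` over these pairs is again `D > 0`.  So
`∏_{n<2^i} ∏_{a<3·2^j} ‖t n - zt j a‖ = 4^(number of pairs with t n = s m)`, which is `1` for
`i ≠ j` (S_NP) and `4^(kap i)` for `i = j`. -/
def S_UPX : Prop := ∀ i j : ℕ,
  ∏ n ∈ Finset.range (2 ^ i), ∏ a ∈ Finset.range (mm j), ‖ee (Y i n) - zt j a‖ =
    if i = j then 4 ^ kap i else 1

/-- the result (assembly by helper87) -/
def S_MAIN : Prop := ∃ (B : ℂ → ℂ) (w : DA) (T : DA →L[ℂ] DA), IsBlaschke B 4 ∧ Elliptic B ∧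
  IsWC B w T ∧ ∃ r : ℝ, 0 < r ∧ AccPt r (𝓟 (Lam T))

end Pool.Agent.Q87.SF
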