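import Mathlib
import Pool.Agent.Q87.SF.Stm

/-! Project SF (helper87): an isolated periodic orbit of `z ↦ z^4` gives a circle in the upper
semi-Fredholm spectrum.  Part A: iterates, cocycle, orbit bounds. -/

set_option autoImplicit false

namespace Pool.Agent.Q87.SFSpec

open Filter Topology Metric Pool.Agent.Q87.SF

/-- the closed disc -/
abbrev D := closedBall (0 : ℂ) 1

lemma nD (z : D) : ‖(z : ℂ)‖ ≤ 1 := mem_closedBall_zero_iff.mp z.2

/-- the map `z ↦ z^4` of the closed disc -/
def b (z : D) : D := ⟨(z : ℂ) ^ 4, by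
  have := nD z
  rw [mem_closedBall, dist_zero_right, norm_pow]
  exact pow_le_one₀ (norm_nonneg _) this⟩

lemma b_cont : Continuous b := by
  unfold b
  exact Continuous.subtype_mk (by fun_prop) _

lemma b_val (z : D) : (b z : ℂ) = (z : ℂ) ^ 4 := rfl

lemma b_iter (k : ℕ) (z : D) : (b^[k] z : ℂ) = (z : ℂ) ^ (4 ^ k) := by
  induction k generalizing z with
  | zero => simp
  | succ k ih =>
    rw [Function.iterate_succ_apply, ih, b_val, ← pow_mul]
    congr 1
    ring

lemma b_iter_cont (k : ℕ) : Continuous (b^[k]) := b_cont.iterate k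

/-- the cocycle -/
noncomputable def W (w : DA) : ℕ → D → ℂ
  | 0, _ => 1
  | (k + 1), z => w.1 z * W w k (b z)

lemma W_cont (w : DA) (k : ℕ) : Continuous (W w k) := by
  induction k with
  | zero =>
    have : W w 0 = fun _ => 1 := rfl
    rw [this]; exact continuous_const
  | succ k ih =>
    have : W w (k + 1) = fun z => w.1 z * W w k (b z) := rfl
    rw [this]
    exact w.1.continuous.mul (ih.comp b_cont)

lemma W_norm (w : DA) (k : ℕ) (z : D) : ‖W w k z‖ ≤ ‖w‖ ^ k := by
  induction k generalizing z with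
  | zero =>
    have h1 : W w 0 z = 1 := rfl
    rw [h1, norm_one, pow_zero]
  | succ k ih =>
    have h1 : ‖w.1 z‖ ≤ ‖w‖ := w.1.norm_coe_le_norm z
    have h2 : W w (k + 1) z = w.1 z * W w k (b z) := rfl
    rw [h2, norm_mul, pow_succ']
    exact mul_le_mul h1 (ih _) (norm_nonneg _) (norm_nonneg _)

lemma T_pow {w : DA} {T : DA →L[ℂ] DA} (hT : IsWC (fun z => z ^ 4) w T) (k : ℕ) (f : DA) (z : D) :
    ((T ^ k) f).1 z = W w k z * f.1 (b^[k] z) := by
  induction k generalizing z with
  | zero => simp [W]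
  | succ k ih =>
    have h1 : (T ^ (k + 1)) f = T ((T ^ k) f) := by
      rw [pow_succ']; rfl
    rw [h1, hT ((T ^ k) f) z (b z) rfl, ih, Function.iterate_succ_apply]
    simp only [W]
    ring

/-- the peaking functions -/
noncomputable def hh (τ : ℂ) (z : ℂ) : ℂ := (1 + starRingEnd ℂ τ * z) / 2

noncomputable def gg (τ : ℂ) (N : ℕ) : DA :=
  ⟨⟨fun z => hh τ z ^ N, by unfold hh; fun_prop⟩, ⟨fun z => hh τ z ^ N, by
    unfold hh
    have : Differentiable ℂ (fun z : ℂ => ((1 + starRingEnd ℂ τ * z) / 2) ^ N) := by fun_prop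
    exact this.differentiableOn, fun z => rfl⟩⟩

lemma gg_val (τ : ℂ) (N : ℕ) (z : D) : (gg τ N).1 z = hh τ z ^ N := rfl

lemma hh_le {τ : ℂ} (hτ : ‖τ‖ = 1) (z : ℂ) : ‖hh τ z‖ ≤ (1 + ‖z‖) / 2 := by
  unfold hh
  rw [norm_div]
  have h2 : ‖(2 : ℂ)‖ = 2 := by simp
  rw [h2]
  have := norm_add_le (1 : ℂ) (starRingEnd ℂ τ * z)
  rw [norm_mul, RCLike.norm_conj, hτ, one_mul, norm_one] at this
  linarith

lemma hh_self {τ : ℂ} (hτ : ‖τ‖ = 1) : hh τ τ = 1 := by
  unfold hh
  have : starRingEnd ℂ τ * τ = 1 := by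
    rw [mul_comm, Complex.mul_conj, Complex.normSq_eq_norm_sq, hτ]; simp
  rw [this]; norm_num

lemma hh_lt {τ : ℂ} (hτ : ‖τ‖ = 1) (z : D) (hz : (z : ℂ) ≠ τ) : ‖hh τ z‖ < 1 := by
  have h1 : ‖starRingEnd ℂ τ * (z : ℂ)‖ ≤ 1 := by
    rw [norm_mul, RCLike.norm_conj, hτ, one_mul]; exact nD z
  set u := starRingEnd ℂ τ * (z : ℂ) with hu
  have hu1 : u ≠ 1 := by
    intro h
    apply hz
    have h3 : starRingEnd ℂ τ * τ = 1 := by
      rw [mul_comm, Complex.mul_conj, Complex.normSq_eq_norm_sq, hτ]; simp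
    have h4 : starRingEnd ℂ τ ≠ 0 := by
      intro h0; rw [h0, zero_mul] at h3; exact zero_ne_one h3
    apply mul_left_cancel₀ h4
    rw [h3, ← hu, h]
  unfold hh
  rw [← hu, norm_div]
  have h2 : ‖(2 : ℂ)‖ = 2 := by simp
  rw [h2, div_lt_one (by norm_num)]
  have h5 : ‖(1 : ℂ) + u‖ ^ 2 < 4 := by
    rw [← Complex.normSq_eq_norm_sq, Complex.normSq_apply]
    have h6 : u.re * u.re + u.im * u.im ≤ 1 := by
      rw [← Complex.normSq_apply, Complex.normSq_eq_norm_sq]
      exact pow_le_one₀ (norm_nonneg _) h1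
    have h7 : u.re < 1 := by
      by_contra hcon
      push Not at hcon
      have h8 : u.re = 1 := by nlinarith [mul_self_nonneg u.im]
      have h9 : u.im = 0 := by
        have : u.im * u.im ≤ 0 := by rw [h8] at h6; linarith
        exact mul_self_eq_zero.mp (le_antisymm this (mul_self_nonneg _))
      exact hu1 (Complex.ext h8 h9)
    simp only [Complex.add_re, Complex.one_re, Complex.add_im, Complex.one_im, zero_add]
    nlinarith
  nlinarith [norm_nonneg ((1 : ℂ) + u)]

/-- fourth roots -/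
lemma four_roots {x y : ℂ} (h : x ^ 4 = y ^ 4) :
    x = y ∨ ∃ i ∈ Finset.Icc 1 3, x = Complex.I ^ i * y := by
  have h1 : (x - y) * (x + y) * (x - Complex.I * y) * (x + Complex.I * y) = 0 := by
    have : (x - y) * (x + y) * (x - Complex.I * y) * (x + Complex.I * y)
        = x ^ 4 - y ^ 4 + (x ^ 2 * y ^ 2 - y ^ 4) * (-(Complex.I ^ 2) - 1) := by ring
    rw [this, h, Complex.I_sq]; ring
  rcases mul_eq_zero.mp h1 with h2 | h2
  · rcases mul_eq_zero.mp h2 with h3 | h3
    · rcases mul_eq_zero.mp h3 with h4 | h4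
      · left; exact sub_eq_zero.mp h4
      · right
        refine ⟨2, by simp, ?_⟩
        rw [Complex.I_sq, neg_one_mul]
        exact eq_neg_of_add_eq_zero_left h4
    · right
      refine ⟨1, by simp, ?_⟩
      rw [pow_one]; exact sub_eq_zero.mp h3
  · right
    refine ⟨3, by simp, ?_⟩
    rw [Complex.I_pow_three, neg_mul]
    exact eq_neg_of_add_eq_zero_left h2

/-- preimages of the orbit: the weight vanishes except along the orbit -/
lemma W_pre {w : DA} {p : ℕ} {t : ℕ → D} (hp : 0 < p)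
    (hper : ∀ n, t (n + p) = t n) (h4 : ∀ n, ((t n : ℂ)) ^ 4 = t (n + 1))
    (hz : ∀ n, ∀ i ∈ Finset.Icc 1 3, ∀ z : D, (z : ℂ) = Complex.I ^ i * t n → w.1 z = 0)
    (m k : ℕ) (z : D) (h : b^[k] z = t m) : W w k z = 0 ∨ z = t (m + k * (p - 1)) := by
  induction k generalizing z with
  | zero => right; simpa using h
  | succ k ih =>
    rw [Function.iterate_succ_apply] at h
    rcases ih (b z) h with h1 | h1
    · left; simp [W, h1]
    · set n := m + k * (p - 1) with hn
      have h2 : t (n + (p - 1) + 1) = t n := by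
        rw [← hper n]; congr 1; omega
      have h3 : (z : ℂ) ^ 4 = (t (n + (p - 1)) : ℂ) ^ 4 := by
        rw [h4, h2, ← h1, b_val]
      rcases four_roots h3 with h5 | ⟨i, hi, h5⟩
      · right
        have : m + (k + 1) * (p - 1) = n + (p - 1) := by rw [hn]; ring
        rw [this]
        exact Subtype.ext h5
      · left
        simp [W, hz _ i hi z h5]

lemma b_t {t : ℕ → D} (h4 : ∀ n, ((t n : ℂ)) ^ 4 = t (n + 1)) (n k : ℕ) :
    b^[k] (t n) = t (n + k) := by
  induction k with
  | zero => rfl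
  | succ k ih =>
    rw [Function.iterate_succ_apply', ih]
    apply Subtype.ext
    rw [b_val, h4]
    rfl

lemma W_t (w : DA) {t : ℕ → D} (h4 : ∀ n, ((t n : ℂ)) ^ 4 = t (n + 1)) (n k : ℕ) :
    ‖W w k (t n)‖ = ∏ j ∈ Finset.range k, ‖w.1 (t (n + j))‖ := by
  induction k generalizing n with
  | zero => simp [W]
  | succ k ih =>
    have hb : b (t n) = t (n + 1) := b_t h4 n 1
    rw [Finset.prod_range_succ', add_zero, mul_comm]
    simp only [W, norm_mul]
    rw [hb, ih]
    congr 1
    apply Finset.prod_congr rfl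
    intro j _
    congr 3
    ring

/-- products along a periodic positive sequence of mean one are bounded above and below -/
lemma per_bound (p : ℕ) (hp : 0 < p) (a : ℕ → ℝ) (ha : ∀ n, 0 < a n) (hper : ∀ n, a (n + p) = a n)
    (h1 : ∏ n ∈ Finset.range p, a n = 1) :
    ∃ c C : ℝ, 0 < c ∧ 0 < C ∧ ∀ n k, c ≤ ∏ j ∈ Finset.range k, a (n + j) ∧
      ∏ j ∈ Finset.range k, a (n + j) ≤ C := by
  -- products over a period
  have hP : ∀ n, ∏ j ∈ Finset.range p, a (n + j) = 1 := by
    intro n
    induction n with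
    | zero => simpa using h1
    | succ n ih =>
      have e1 : ∏ j ∈ Finset.range (p + 1), a (n + j) = 1 * a n := by
        rw [Finset.prod_range_succ, ih, hper]
      rw [Finset.prod_range_succ'] at e1
      have e2 : a (n + 0) ≠ 0 := (ha _).ne'
      have e3 : ∏ j ∈ Finset.range p, a (n + (j + 1)) = 1 := by
        apply mul_right_cancel₀ e2
        rw [e1, add_zero]
      rw [← e3]
      apply Finset.prod_congr rfl
      intro j _
      congr 1
      ring
  have hk : ∀ n k, ∏ j ∈ Finset.range (k + p), a (n + j) = ∏ j ∈ Finset.range k, a (n + j) := by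
    intro n k
    rw [Finset.prod_range_add]
    have : ∏ x ∈ Finset.range p, a (n + (k + x)) = 1 := by
      rw [← hP (n + k)]
      apply Finset.prod_congr rfl
      intro j _; congr 1; ring
    rw [this, mul_one]
  have hk2 : ∀ n k, ∏ j ∈ Finset.range k, a (n + j) =
      ∏ j ∈ Finset.range (k % p), a (n + j) := by
    intro n k
    induction k using Nat.strong_induction_on with
    | _ k ih =>
      by_cases hkp : k < p
      · rw [Nat.mod_eq_of_lt hkp]
      · push Not at hkp
        obtain ⟨m, rfl⟩ := Nat.exists_eq_add_of_le' hkp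
        rw [hk, ih m (by omega), Nat.add_mod_right]
  have hn2 : ∀ n k, ∏ j ∈ Finset.range k, a (n + j) = ∏ j ∈ Finset.range k, a (n % p + j) := by
    intro n k
    apply Finset.prod_congr rfl
    intro j _
    have : Function.Periodic a p := hper
    have h5 : a (n % p + j) = a ((n % p + j) + (n / p) * p) := by
      have := this.nat_mul (n / p)
      simpa using (this (n % p + j)).symm
    rw [h5]
    congr 1
    have h6 := Nat.mod_add_div n p
    rw [mul_comm p] at h6
    omega
  let S := (Finset.range p ×ˢ Finset.range p).image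
    (fun x : ℕ × ℕ => ∏ j ∈ Finset.range x.2, a (x.1 + j))
  have hS : ∀ n k, ∏ j ∈ Finset.range k, a (n + j) ∈ S := by
    intro n k
    refine Finset.mem_image.mpr ⟨(n % p, k % p), ?_, ?_⟩
    · simp [Nat.mod_lt _ hp]
    · simp only
      rw [hn2 n k, hk2 (n % p) k]
  have hne : S.Nonempty := ⟨_, hS 0 0⟩
  have hpos : ∀ x ∈ S, 0 < x := by
    intro x hx
    obtain ⟨y, _, rfl⟩ := Finset.mem_image.mp hx
    exact Finset.prod_pos fun j _ => ha _
  refine ⟨S.min' hne, S.max' hne, hpos _ (S.min'_mem hne), hpos _ (S.max'_mem hne), ?_⟩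
  intro n k
  exact ⟨S.min'_le _ (hS n k), S.le_max' _ (hS n k)⟩

end Pool.Agent.Q87.SFSpec
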