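import Mathlib
import Pool.Agent.Q87.SF.SpecA

/-! Project SF (helper87), SF-SPEC part B: the neighbourhoods. -/

set_option autoImplicit false

namespace Pool.Agent.Q87.SFSpec

open Filter Topology Metric Pool.Agent.Q87.SF

/-- a neighbourhood of `t 0` on whose preimages the cocycle is small -/
lemma exists_U (w : DA) (t0 : D) (r C : ℝ) (hr : 0 < r) (hC : 0 < C)
    (h : ∀ k z, b^[k] z = t0 → ‖W w k z‖ ≤ C * r ^ k) (K : ℕ) :
    ∃ U : Set D, IsOpen U ∧ t0 ∈ U ∧ ∀ k ≤ K, ∀ z, b^[k] z ∈ U → ‖W w k z‖ ≤ 2 * C * r ^ k := by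
  let F : ℕ → Set D := fun k => {z | 2 * C * r ^ k ≤ ‖W w k z‖}
  have hF : ∀ k, IsClosed (b^[k] '' F k) := by
    intro k
    have h1 : IsClosed (F k) := isClosed_le continuous_const (W_cont w k).norm
    exact (h1.isCompact.image (b_iter_cont k)).isClosed
  refine ⟨⋂ k ∈ Finset.range (K + 1), (b^[k] '' F k)ᶜ,
    isOpen_biInter_finset fun k _ => (hF k).isOpen_compl, ?_, ?_⟩
  · simp only [Set.mem_iInter]
    intro k _
    rintro ⟨z, hz, hz2⟩
    have h1 := h k z hz2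
    have h2 : 2 * C * r ^ k ≤ ‖W w k z‖ := hz
    have h3 : 0 < C * r ^ k := by positivity
    nlinarith
  · intro k hk z hz
    simp only [Set.mem_iInter] at hz
    have h1 := hz k (Finset.mem_range.mpr (by omega))
    by_contra hcon
    push Not at hcon
    exact h1 ⟨z, hcon.le, rfl⟩

/-- a neighbourhood without short returns -/
lemma exists_V (U : Set D) (hU : IsOpen U) (τ : D) (hτ : τ ∈ U) (K : ℕ)
    (h : ∀ m, 1 ≤ m → m ≤ K → b^[m] τ ≠ τ) :
    ∃ V : Set D, IsOpen V ∧ τ ∈ V ∧ V ⊆ U ∧ ∀ m, 1 ≤ m → m ≤ K → ∀ y ∈ V, b^[m] y ∉ V := by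
  have h1 : ∀ m, ∃ V : Set D, IsOpen V ∧ τ ∈ V ∧ (1 ≤ m → m ≤ K → ∀ y ∈ V, b^[m] y ∉ V) := by
    intro m
    by_cases hm : 1 ≤ m ∧ m ≤ K
    · obtain ⟨A, B, hA, hB, hbA, hτB, hAB⟩ := t2_separation (h m hm.1 hm.2)
      refine ⟨B ∩ (b^[m]) ⁻¹' A, hB.inter (hA.preimage (b_iter_cont m)), ⟨hτB, hbA⟩, ?_⟩
      intro _ _ y hy hy2
      exact Set.disjoint_left.mp hAB hy.2 hy2.1
    · exact ⟨Set.univ, isOpen_univ, Set.mem_univ _, fun a c => absurd ⟨a, c⟩ hm⟩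
  choose V hV1 hV2 hV3 using h1
  refine ⟨U ∩ ⋂ m ∈ Finset.range (K + 1), V m,
    hU.inter (isOpen_biInter_finset fun m _ => hV1 m), ⟨hτ, ?_⟩, Set.inter_subset_left, ?_⟩
  · simp only [Set.mem_iInter]
    intro m _; exact hV2 m
  · intro m hm hmK y hy hy2
    have e1 := hy.2
    have e2 := hy2.2
    simp only [Set.mem_iInter] at e1 e2
    exact hV3 m hm hmK y (e1 m (Finset.mem_range.mpr (by omega)))
      (e2 m (Finset.mem_range.mpr (by omega)))

/-- the peak function is small off the neighbourhood -/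
lemma exists_q (V : Set D) (hV : IsOpen V) (τ : D) (hτ : τ ∈ V) (hτ1 : ‖(τ : ℂ)‖ = 1) :
    ∃ q : ℝ, 0 ≤ q ∧ q < 1 ∧ ∀ y, y ∉ V → ‖hh τ y‖ ≤ q := by
  by_cases hne : (Vᶜ).Nonempty
  · have hc : IsCompact (Vᶜ) := hV.isClosed_compl.isCompact
    have hcont : ContinuousOn (fun y : D => ‖hh τ y‖) Vᶜ := by
      unfold hh
      fun_prop
    obtain ⟨y0, hy0, hmax⟩ := hc.exists_isMaxOn hne hcont
    refine ⟨‖hh τ y0‖, norm_nonneg _, hh_lt hτ1 y0 ?_, ?_⟩
    · intro h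
      exact hy0 (by rw [Subtype.ext h]; exact hτ)
    · intro y hy
      exact hmax hy
  · refine ⟨1 / 2, by norm_num, by norm_num, ?_⟩
    intro y hy
    exact absurd ⟨y, hy⟩ hne

/-- the point `z*` -/
lemma exists_zs (z0 : D) (hz0 : ‖(z0 : ℂ)‖ = 1) (O : Set D) (hO : IsOpen O) (hzO : z0 ∈ O)
    (n K : ℕ) : ∃ zs ∈ O, ‖(zs : ℂ)‖ = 1 ∧ ∀ m, 1 ≤ m → m ≤ K → b^[m] (b^[n] zs) ≠ b^[n] zs := by
  let γ : ℝ → D := fun θ => ⟨z0 * Complex.exp (θ * Complex.I), by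
    rw [mem_closedBall_zero_iff, norm_mul, hz0, Complex.norm_exp_ofReal_mul_I, one_mul]⟩
  have hγ : Continuous γ := Continuous.subtype_mk (by fun_prop) _
  have hγ0 : γ 0 = z0 := Subtype.ext (by simp [γ])
  have h1 : ∀ᶠ θ in 𝓝 (0 : ℝ), γ θ ∈ O :=
    hγ.continuousAt.eventually_mem (by rw [hγ0]; exact hO.mem_nhds hzO)
  obtain ⟨δ, hδ, h2⟩ := Metric.eventually_nhds_iff.mp h1
  -- the bad points
  let E : ℕ → ℕ := fun m => 4 ^ (m + n) - 4 ^ n
  have hE : ∀ m, 1 ≤ m → 0 < E m := by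
    intro m hm
    have : 4 ^ n < 4 ^ (m + n) := Nat.pow_lt_pow_right (by norm_num) (by omega)
    exact Nat.sub_pos_of_lt this
  let Bad : Set ℂ := ⋃ m ∈ Finset.Icc 1 K, {z : ℂ | z ^ (E m) = 1}
  have hBad : Bad.Finite := by
    apply Set.Finite.biUnion (Finset.finite_toSet _)
    intro m hm
    have hm1 : 1 ≤ m := (Finset.mem_Icc.mp hm).1
    have : {z : ℂ | z ^ (E m) = 1} ⊆ ((Polynomial.nthRootsFinset (E m) (1 : ℂ) : Finset ℂ) : Set ℂ) := by
      intro z hz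
      rw [Finset.mem_coe, Polynomial.mem_nthRootsFinset (hE m hm1)]
      exact hz
    exact (Finset.finite_toSet _).subset this
  have hinj : Set.InjOn (fun θ : ℝ => (γ θ : ℂ)) (Set.Ioo 0 (min δ 1)) := by
    intro x hx y hy hxy
    have hz0' : (z0 : ℂ) ≠ 0 := by
      intro h; rw [h, norm_zero] at hz0; exact zero_ne_one hz0
    have h3 : Complex.exp (x * Complex.I) = Complex.exp (y * Complex.I) :=
      mul_left_cancel₀ hz0' hxy
    have hx1 : x < 1 := lt_of_lt_of_le hx.2 (min_le_right _ _)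
    have hy1 : y < 1 := lt_of_lt_of_le hy.2 (min_le_right _ _)
    have hpi := Real.pi_gt_three
    have h4 := Complex.exp_inj_of_neg_pi_lt_of_le_pi (x := x * Complex.I) (y := y * Complex.I)
      (by simp; linarith [hx.1]) (by simp; linarith) (by simp; linarith [hy.1])
      (by simp; linarith) h3
    have h5 := mul_right_cancel₀ Complex.I_ne_zero h4
    exact_mod_cast h5
  have hfin : (Set.Ioo 0 (min δ 1) ∩ (fun θ : ℝ => (γ θ : ℂ)) ⁻¹' Bad).Finite := by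
    have := Set.Finite.preimage (f := fun θ : ℝ => (γ θ : ℂ)) (s := Bad ∩ (fun θ : ℝ => (γ θ : ℂ)) ''
      (Set.Ioo 0 (min δ 1)))
    have hf2 : ((fun θ : ℝ => (γ θ : ℂ)) '' (Set.Ioo 0 (min δ 1) ∩
        (fun θ : ℝ => (γ θ : ℂ)) ⁻¹' Bad)).Finite := by
      apply hBad.subset
      rintro _ ⟨θ, hθ, rfl⟩
      exact hθ.2
    exact Set.Finite.of_finite_image hf2 (hinj.mono Set.inter_subset_left)
  have hinf : (Set.Ioo 0 (min δ 1)).Infinite := Set.Ioo_infinite (lt_min hδ one_pos)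
  obtain ⟨θ, hθ, hθ2⟩ := hinf.exists_notMem_finite hfin
  have hθ3 : (γ θ : ℂ) ∉ Bad := fun h => hθ2 ⟨hθ, h⟩
  have hnorm : ‖(γ θ : ℂ)‖ = 1 := by
    simp only [γ]
    rw [norm_mul, hz0, Complex.norm_exp_ofReal_mul_I, one_mul]
  refine ⟨γ θ, h2 ?_, hnorm, ?_⟩
  · rw [dist_zero_right, Real.norm_eq_abs, abs_of_pos hθ.1]
    exact lt_of_lt_of_le hθ.2 (min_le_left _ _)
  · intro m hm hmK heq
    apply hθ3
    simp only [Bad, Set.mem_iUnion]
    refine ⟨m, Finset.mem_Icc.mpr ⟨hm, hmK⟩, ?_⟩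
    have h5 : b^[m] (b^[n] (γ θ)) = b^[m + n] (γ θ) := (Function.iterate_add_apply b m n _).symm
    rw [h5] at heq
    have h6 := congrArg (fun x : D => (x : ℂ)) heq
    simp only [b_iter] at h6
    have h7 : (γ θ : ℂ) ≠ 0 := by
      intro h; rw [h, norm_zero] at hnorm; exact zero_ne_one hnorm
    have h8 : 4 ^ (m + n) = E m + 4 ^ n := by
      simp only [E]
      have : 4 ^ n ≤ 4 ^ (m + n) := Nat.pow_le_pow_right (by norm_num) (by omega)
      omega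
    rw [h8, pow_add] at h6
    have h9 : (γ θ : ℂ) ^ (4 ^ n) ≠ 0 := pow_ne_zero _ h7
    show (γ θ : ℂ) ^ (E m) = 1
    apply mul_right_cancel₀ h9
    rw [h6, one_mul]

end Pool.Agent.Q87.SFSpec
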