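import Mathlib
import Pool.Agent.Q87.SF.SpecB

/-! Project SF (helper87), SF-SPEC part C: the approximate eigenvectors. -/

set_option autoImplicit false

namespace Pool.Agent.Q87.SFSpec

open Filter Topology Metric Pool.Agent.Q87.SF

lemma val_sum_apply {ι : Type*} (s : Finset ι) (f : ι → DA) (z : D) :
    (∑ i ∈ s, f i).1 z = ∑ i ∈ s, (f i).1 z := by
  classical
  induction s using Finset.induction_on with
  | empty => rfl
  | insert a s ha ih =>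
    rw [Finset.sum_insert ha, Finset.sum_insert ha, ← ih]
    rfl

lemma norm_le_of_forall (f : DA) {C : ℝ} (hC : 0 ≤ C) (h : ∀ z : D, ‖f.1 z‖ ≤ C) : ‖f‖ ≤ C :=
  (ContinuousMap.norm_le _ hC).mpr h

/-- combination of the iterates of the peak function -/
noncomputable def comb (T : DA →L[ℂ] DA) (τ : ℂ) (N K : ℕ) (d : ℕ → ℂ) : DA :=
  ∑ k ∈ Finset.range (K + 1), d k • (T ^ k) (gg τ N)

lemma comb_apply {w : DA} {T : DA →L[ℂ] DA} (hT : IsWC (fun z => z ^ 4) w T) (τ : ℂ) (N K : ℕ)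
    (d : ℕ → ℂ) (z : D) : (comb T τ N K d).1 z =
      ∑ k ∈ Finset.range (K + 1), d k * (W w k z * hh τ (b^[k] z) ^ N) := by
  unfold comb
  rw [val_sum_apply]
  apply Finset.sum_congr rfl
  intro k _
  have h1 : (d k • (T ^ k) (gg τ N)).1 z = d k * ((T ^ k) (gg τ N)).1 z := rfl
  rw [h1, T_pow hT, gg_val]

/-- disjointness -/
lemma disj {V : Set D} {K : ℕ} (hV : ∀ m, 1 ≤ m → m ≤ K → ∀ y ∈ V, b^[m] y ∉ V) (z : D)
    {k k' : ℕ} (hk : k ≤ K) (hk' : k' ≤ K) (h1 : b^[k] z ∈ V) (h2 : b^[k'] z ∈ V) : k = k' := by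
  rcases lt_trichotomy k k' with h | h | h
  · exfalso
    refine hV (k' - k) (by omega) (by omega) _ h1 ?_
    rw [← Function.iterate_add_apply]
    have : k' - k + k = k' := by omega
    rw [this]; exact h2
  · exact h
  · exfalso
    refine hV (k - k') (by omega) (by omega) _ h2 ?_
    rw [← Function.iterate_add_apply]
    have : k - k' + k' = k := by omega
    rw [this]; exact h1

/-- the upper bound for combinations -/
lemma comb_bound {w : DA} {T : DA →L[ℂ] DA} (hT : IsWC (fun z => z ^ 4) w T) {τ : ℂ}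
    (hτ : ‖τ‖ = 1) (N K : ℕ) (d : ℕ → ℂ) {V : Set D}
    (hV : ∀ m, 1 ≤ m → m ≤ K → ∀ y ∈ V, b^[m] y ∉ V) {q : ℝ} (hq0 : 0 ≤ q)
    (hq : ∀ y, y ∉ V → ‖hh τ y‖ ≤ q) {M : ℝ} (hM : 0 ≤ M)
    (hd : ∀ k ≤ K, ∀ z, b^[k] z ∈ V → ‖d k‖ * ‖W w k z‖ ≤ M) :
    ‖comb T τ N K d‖ ≤ M + q ^ N * ∑ k ∈ Finset.range (K + 1), ‖d k‖ * ‖w‖ ^ k := by
  classical
  have hE : 0 ≤ ∑ k ∈ Finset.range (K + 1), ‖d k‖ * ‖w‖ ^ k :=
    Finset.sum_nonneg fun k _ => by positivity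
  apply norm_le_of_forall _ (by positivity)
  intro z
  rw [comb_apply hT]
  have h1 : ∀ k ∈ Finset.range (K + 1), ‖d k * (W w k z * hh τ (b^[k] z) ^ N)‖ ≤
      (if b^[k] z ∈ V then M else 0) + q ^ N * (‖d k‖ * ‖w‖ ^ k) := by
    intro k hk
    have hk' : k ≤ K := by have := Finset.mem_range.mp hk; omega
    rw [norm_mul, norm_mul, norm_pow]
    by_cases hz : b^[k] z ∈ V
    · rw [if_pos hz]
      have h2 := hd k hk' z hz
      have h3 : ‖hh τ (b^[k] z)‖ ≤ 1 := by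
        have := hh_le hτ (b^[k] z)
        have := nD (b^[k] z)
        linarith
      have h4 : ‖hh τ (b^[k] z)‖ ^ N ≤ 1 := pow_le_one₀ (norm_nonneg _) h3
      calc ‖d k‖ * (‖W w k z‖ * ‖hh τ (b^[k] z)‖ ^ N)
          = (‖d k‖ * ‖W w k z‖) * ‖hh τ (b^[k] z)‖ ^ N := by ring
        _ ≤ (‖d k‖ * ‖W w k z‖) * 1 := by gcongr
        _ ≤ M := by rw [mul_one]; exact h2
        _ ≤ M + q ^ N * (‖d k‖ * ‖w‖ ^ k) := by
          have : 0 ≤ q ^ N * (‖d k‖ * ‖w‖ ^ k) := by positivity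
          linarith
    · rw [if_neg hz, zero_add]
      have h2 := hq _ hz
      have h3 : ‖hh τ (b^[k] z)‖ ^ N ≤ q ^ N := by gcongr
      have h5 := W_norm w k z
      calc ‖d k‖ * (‖W w k z‖ * ‖hh τ (b^[k] z)‖ ^ N) ≤ ‖d k‖ * (‖w‖ ^ k * q ^ N) := by gcongr
        _ = q ^ N * (‖d k‖ * ‖w‖ ^ k) := by ring
  refine (norm_sum_le _ _).trans ((Finset.sum_le_sum h1).trans ?_)
  rw [Finset.sum_add_distrib, ← Finset.mul_sum]
  have h6 : ∑ k ∈ Finset.range (K + 1), (if b^[k] z ∈ V then M else 0) ≤ M := by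
    by_cases hex : ∃ k ∈ Finset.range (K + 1), b^[k] z ∈ V
    · obtain ⟨k, hk, hkV⟩ := hex
      rw [Finset.sum_eq_single_of_mem k hk]
      · rw [if_pos hkV]
      · intro k' hk' hne
        rw [if_neg]
        intro hV'
        apply hne
        have a1 := Finset.mem_range.mp hk
        have a2 := Finset.mem_range.mp hk'
        exact disj hV z (by omega) (by omega) hV' hkV
    · rw [Finset.sum_eq_zero]
      · exact hM
      · intro k hk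
        rw [if_neg]
        exact fun hV' => hex ⟨k, hk, hV'⟩
  linarith

/-- the lower bound at one point -/
lemma comb_lower {w : DA} {T : DA →L[ℂ] DA} (hT : IsWC (fun z => z ^ 4) w T) {τ : ℂ}
    (hτ : ‖τ‖ = 1) (N K n : ℕ) (hn : n ≤ K) (d : ℕ → ℂ) {V : Set D}
    (hV : ∀ m, 1 ≤ m → m ≤ K → ∀ y ∈ V, b^[m] y ∉ V) {q : ℝ} (hq0 : 0 ≤ q)
    (hq : ∀ y, y ∉ V → ‖hh τ y‖ ≤ q) (zs : D) (hzs : (b^[n] zs : ℂ) = τ) (hzV : b^[n] zs ∈ V) :
    ‖d n‖ * ‖W w n zs‖ - q ^ N * ∑ k ∈ Finset.range (K + 1), ‖d k‖ * ‖w‖ ^ k ≤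
      ‖comb T τ N K d‖ := by
  have h0 : ‖(comb T τ N K d).1 zs‖ ≤ ‖comb T τ N K d‖ :=
    (comb T τ N K d).1.norm_coe_le_norm zs
  refine le_trans ?_ h0
  rw [comb_apply hT]
  have hmem : n ∈ Finset.range (K + 1) := Finset.mem_range.mpr (by omega)
  rw [← Finset.add_sum_erase (Finset.range (K + 1))
    (fun k => d k * (W w k zs * hh τ (b^[k] zs) ^ N)) hmem]
  have h1 : ‖d n * (W w n zs * hh τ (b^[n] zs) ^ N)‖ = ‖d n‖ * ‖W w n zs‖ := by
    rw [hzs, hh_self hτ, one_pow, mul_one, norm_mul]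
  have h2 : ‖∑ k ∈ (Finset.range (K + 1)).erase n, d k * (W w k zs * hh τ (b^[k] zs) ^ N)‖ ≤
      q ^ N * ∑ k ∈ Finset.range (K + 1), ‖d k‖ * ‖w‖ ^ k := by
    refine (norm_sum_le _ _).trans ?_
    have h3 : ∀ k ∈ (Finset.range (K + 1)).erase n,
        ‖d k * (W w k zs * hh τ (b^[k] zs) ^ N)‖ ≤ q ^ N * (‖d k‖ * ‖w‖ ^ k) := by
      intro k hk
      obtain ⟨hkn, hk⟩ := Finset.mem_erase.mp hk
      have hkK := Finset.mem_range.mp hk
      have h4 : b^[k] zs ∉ V := fun h => hkn (disj hV zs (by omega) hn h hzV)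
      have h5 := hq _ h4
      have h6 : ‖hh τ (b^[k] zs)‖ ^ N ≤ q ^ N := by gcongr
      have h7 := W_norm w k zs
      rw [norm_mul, norm_mul, norm_pow]
      calc ‖d k‖ * (‖W w k zs‖ * ‖hh τ (b^[k] zs)‖ ^ N) ≤ ‖d k‖ * (‖w‖ ^ k * q ^ N) := by gcongr
        _ = q ^ N * (‖d k‖ * ‖w‖ ^ k) := by ring
    refine (Finset.sum_le_sum h3).trans ?_
    rw [← Finset.mul_sum]
    gcongr
    exact Finset.erase_subset _ _
  have h3 := norm_sub_le_norm_add (d n * (W w n zs * hh τ (b^[n] zs) ^ N))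
    (∑ k ∈ (Finset.range (K + 1)).erase n, d k * (W w k zs * hh τ (b^[k] zs) ^ N))
  rw [h1] at h3
  linarith

/-- smallness inside the disc -/
lemma comb_inner {w : DA} {T : DA →L[ℂ] DA} (hT : IsWC (fun z => z ^ 4) w T) {τ : ℂ}
    (hτ : ‖τ‖ = 1) (N K : ℕ) (d : ℕ → ℂ) {s : ℝ} (z : D) (hz : ‖(z : ℂ)‖ ≤ s) :
    ‖(comb T τ N K d).1 z‖ ≤
      ((1 + s) / 2) ^ N * ∑ k ∈ Finset.range (K + 1), ‖d k‖ * ‖w‖ ^ k := by
  rw [comb_apply hT]
  refine (norm_sum_le _ _).trans ?_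
  rw [Finset.mul_sum]
  apply Finset.sum_le_sum
  intro k _
  rw [norm_mul, norm_mul, norm_pow]
  have h1 : ‖hh τ (b^[k] z)‖ ≤ (1 + s) / 2 := by
    have h2 := hh_le hτ (b^[k] z)
    have h3 : ‖(b^[k] z : ℂ)‖ ≤ ‖(z : ℂ)‖ := by
      rw [b_iter, norm_pow]
      exact pow_le_of_le_one (norm_nonneg _) (nD z) (by positivity)
    linarith
  have h2 : ‖hh τ (b^[k] z)‖ ^ N ≤ ((1 + s) / 2) ^ N := by gcongr
  have h7 := W_norm w k z
  have hs : 0 ≤ s := (norm_nonneg _).trans hz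
  calc ‖d k‖ * (‖W w k z‖ * ‖hh τ (b^[k] z)‖ ^ N)
      ≤ ‖d k‖ * (‖w‖ ^ k * ((1 + s) / 2) ^ N) := by gcongr
    _ = ((1 + s) / 2) ^ N * (‖d k‖ * ‖w‖ ^ k) := by ring

end Pool.Agent.Q87.SFSpec
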