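import Mathlib
import Pool.Agent.Q87.SF.SpecC

/-! Project SF (helper87), SF-SPEC: an isolated periodic orbit gives a circle. -/

set_option autoImplicit false

namespace Pool.Agent.Q87.SFSpec

open Filter Topology Metric Pool.Agent.Q87.SF

/-- the tent -/
noncomputable def tent (n k : ℕ) : ℝ := 1 - |(k : ℝ) - n| / n

lemma tent_zero {n : ℕ} (hn : 1 ≤ n) : tent n 0 = 0 := by
  have : (0 : ℝ) < n := by exact_mod_cast hn
  unfold tent
  rw [Nat.cast_zero, zero_sub, abs_neg, abs_of_pos this, div_self this.ne', sub_self]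

lemma tent_end {n : ℕ} (hn : 1 ≤ n) : tent n (2 * n) = 0 := by
  have : (0 : ℝ) < n := by exact_mod_cast hn
  unfold tent
  have h2 : ((2 * n : ℕ) : ℝ) - n = n := by push_cast; ring
  rw [h2, abs_of_pos this, div_self this.ne', sub_self]

lemma tent_mid {n : ℕ} : tent n n = 1 := by
  unfold tent
  simp

lemma tent_step {n : ℕ} (hn : 1 ≤ n) (k : ℕ) : |tent n k - tent n (k + 1)| ≤ 1 / n := by
  have h0 : (0 : ℝ) < n := by exact_mod_cast hn
  unfold tent
  have h1 : 1 - |(k : ℝ) - n| / n - (1 - |((k + 1 : ℕ) : ℝ) - n| / n) =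
      (|((k + 1 : ℕ) : ℝ) - n| - |(k : ℝ) - n|) / n := by ring
  rw [h1, abs_div, abs_of_pos h0]
  gcongr
  refine (abs_abs_sub_abs_le _ _).trans ?_
  have : ((k + 1 : ℕ) : ℝ) - n - ((k : ℝ) - n) = 1 := by push_cast; ring
  rw [this, abs_one]

lemma comb_diff {w : DA} {T : DA →L[ℂ] DA} (τ : ℂ) (N n : ℕ) (e : ℕ → ℂ) (l : ℂ)
    (h0 : e 0 = 0) (h1 : e (2 * n) = 0) :
    T (comb T τ N (2 * n) e) - l • comb T τ N (2 * n) e =
      comb T τ N (2 * n) (fun k => if k = 0 then 0 else e (k - 1) - l * e k) := by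
  unfold comb
  rw [map_sum]
  have a1 : ∑ k ∈ Finset.range (2 * n + 1), T (e k • (T ^ k) (gg τ N)) =
      ∑ k ∈ Finset.range (2 * n), e k • (T ^ (k + 1)) (gg τ N) := by
    rw [Finset.sum_range_succ, h1, zero_smul, map_zero, add_zero]
    apply Finset.sum_congr rfl
    intro k _
    rw [map_smul, pow_succ']
    rfl
  have a2 : l • ∑ k ∈ Finset.range (2 * n + 1), e k • (T ^ k) (gg τ N) =
      ∑ k ∈ Finset.range (2 * n), (l * e (k + 1)) • (T ^ (k + 1)) (gg τ N) := by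
    rw [Finset.sum_range_succ', h0, zero_smul, add_zero, Finset.smul_sum]
    apply Finset.sum_congr rfl
    intro k _
    rw [smul_smul]
  rw [a1, a2, ← Finset.sum_sub_distrib, Finset.sum_range_succ' (fun k =>
    (if k = 0 then (0 : ℂ) else e (k - 1) - l * e k) • (T ^ k) (gg τ N))]
  rw [if_pos rfl, zero_smul, add_zero]
  apply Finset.sum_congr rfl
  intro k _
  rw [if_neg (Nat.succ_ne_zero k), Nat.add_sub_cancel]
  exact (sub_smul _ _ _).symm

lemma small_pow (q E δ : ℝ) (hq0 : 0 ≤ q) (hq1 : q < 1) (hδ : 0 < δ) :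
    ∀ᶠ N : ℕ in atTop, q ^ N * E ≤ δ := by
  have h1 : Tendsto (fun N : ℕ => q ^ N * E) atTop (𝓝 (0 * E)) :=
    (tendsto_pow_atTop_nhds_zero_of_lt_one hq0 hq1).mul_const E
  rw [zero_mul] at h1
  exact (h1.eventually_lt_const hδ).mono fun N h => h.le

/-- the approximate eigenvectors -/
lemma approx {w : DA} {T : DA →L[ℂ] DA} (hT : IsWC (fun z => z ^ 4) w T)
    {p : ℕ} {t : ℕ → D} (hp : 0 < p) (ht1 : ∀ n, ‖(t n : ℂ)‖ = 1) (hper : ∀ n, t (n + p) = t n)
    (h4 : ∀ n, ((t n : ℂ)) ^ 4 = t (n + 1)) (hw : ∀ n, w.1 (t n) ≠ 0)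
    (hz : ∀ n, ∀ i ∈ Finset.Icc 1 3, ∀ z : D, (z : ℂ) = Complex.I ^ i * t n → w.1 z = 0)
    {l : ℂ} (hl : ‖l‖ ^ p = ∏ n ∈ Finset.range p, ‖w.1 (t n)‖) :
    ∃ A : ℝ, 0 < A ∧ ∀ n : ℕ, 1 ≤ n → ∃ f : DA, ‖f‖ = 1 ∧ ‖T f - l • f‖ ≤ A / n ∧
      ∀ z : D, ‖(z : ℂ)‖ ≤ 1 - 1 / n → ‖f.1 z‖ ≤ A / n := by
  set r := ‖l‖ with hr
  have hr0 : 0 < r := by
    rcases (norm_nonneg l).lt_or_eq with h | h
    · exact h
    · exfalso
      have h1 : ∏ n ∈ Finset.range p, ‖w.1 (t n)‖ > 0 :=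
        Finset.prod_pos fun n _ => norm_pos_iff.mpr (hw n)
      rw [← hl, hr, ← h, zero_pow hp.ne'] at h1
      exact lt_irrefl _ h1
  obtain ⟨c, C, hc, hC, hcC⟩ := per_bound p hp (fun n => ‖w.1 (t n)‖ / r)
    (fun n => div_pos (norm_pos_iff.mpr (hw n)) hr0)
    (fun n => by simp only [hper]) (by
      rw [Finset.prod_div_distrib, Finset.prod_const, Finset.card_range, ← hl,
        div_self (pow_pos hr0 _).ne'])
  have horb : ∀ n k, c * r ^ k ≤ ‖W w k (t n)‖ ∧ ‖W w k (t n)‖ ≤ C * r ^ k := by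
    intro n k
    have h1 := hcC n k
    simp only [Finset.prod_div_distrib, Finset.prod_const, Finset.card_range] at h1
    rw [← W_t w h4] at h1
    have h2 : 0 < r ^ k := pow_pos hr0 k
    rw [le_div_iff₀ h2, div_le_iff₀ h2] at h1
    exact h1
  have hpre : ∀ k z, b^[k] z = t 0 → ‖W w k z‖ ≤ C * r ^ k := by
    intro k z hkz
    rcases W_pre hp hper h4 hz 0 k z hkz with h | h
    · rw [h, norm_zero]; positivity
    · rw [h]; exact (horb _ _).2
  refine ⟨4 / c * (2 * C * r + 1), by positivity, ?_⟩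
  intro n hn
  have hn0 : (0 : ℝ) < n := by exact_mod_cast hn
  obtain ⟨U, hU, htU, hUb⟩ := exists_U w (t 0) r C hr0 hC hpre (2 * n)
  -- the point zs
  set z0 := t (n * (p - 1)) with hz0
  have hbz0 : b^[n] z0 = t 0 := by
    rw [hz0, b_t h4]
    have h1 : n * (p - 1) + n = 0 + n * p := by
      obtain ⟨p', rfl⟩ := Nat.exists_eq_succ_of_ne_zero hp.ne'
      simp only [Nat.succ_eq_add_one, Nat.add_sub_cancel]; ring
    rw [h1]
    have h2 : Function.Periodic t p := hper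
    simpa using h2.nat_mul n 0
  have hO : IsOpen ((b^[n]) ⁻¹' U ∩ {z | c / 2 * r ^ n < ‖W w n z‖}) :=
    (hU.preimage (b_iter_cont n)).inter (isOpen_lt continuous_const (W_cont w n).norm)
  have hz0O : z0 ∈ (b^[n]) ⁻¹' U ∩ {z | c / 2 * r ^ n < ‖W w n z‖} := by
    refine ⟨by rw [Set.mem_preimage, hbz0]; exact htU, ?_⟩
    have h1 := (horb (n * (p - 1)) n).1
    have h2 : 0 < c * r ^ n := by positivity
    show c / 2 * r ^ n < ‖W w n z0‖
    linarith
  obtain ⟨zs, hzsO, hzs1, hzs2⟩ := exists_zs z0 (ht1 _) _ hO hz0O n (2 * n)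
  set τ := b^[n] zs with hτ
  have hτ1 : ‖(τ : ℂ)‖ = 1 := by rw [hτ, b_iter, norm_pow, hzs1, one_pow]
  obtain ⟨V, hV, hτV, hVU, hVret⟩ := exists_V U hU τ hzsO.1 (2 * n) hzs2
  obtain ⟨q, hq0, hq1, hq⟩ := exists_q V hV τ hτV hτ1
  -- coefficients
  let e : ℕ → ℂ := fun k => (tent n k : ℂ) * (l ^ k)⁻¹
  have hl0 : l ≠ 0 := norm_pos_iff.mp hr0
  have he0 : e 0 = 0 := by simp [e, tent_zero hn]
  have he1 : e (2 * n) = 0 := by
    simp only [e]; rw [tent_end hn]; simp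
  let d : ℕ → ℂ := fun k => if k = 0 then 0 else e (k - 1) - l * e k
  have hdn : ∀ k, ‖d k‖ ≤ (1 / n) * r / r ^ k := by
    intro k
    by_cases hk : k = 0
    · simp only [d, if_pos hk, norm_zero]
      positivity
    · obtain ⟨k', rfl⟩ := Nat.exists_eq_succ_of_ne_zero hk
      have h1 : d (k' + 1) = ((tent n k' - tent n (k' + 1) : ℝ) : ℂ) * (l ^ k')⁻¹ := by
        simp only [d, e, if_neg (Nat.succ_ne_zero k'), Nat.add_sub_cancel]
        rw [pow_succ]
        push_cast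
        field_simp
      simp only [Nat.succ_eq_add_one]
      rw [h1, norm_mul, Complex.norm_real, Real.norm_eq_abs, norm_inv, norm_pow, ← hr]
      have h2 := tent_step hn k'
      have h3 : (1 : ℝ) / n * r / r ^ (k' + 1) = (1 / n) * (r ^ k')⁻¹ := by
        rw [pow_succ]; field_simp
      rw [h3]
      gcongr
  set E1 := ∑ k ∈ Finset.range (2 * n + 1), ‖d k‖ * ‖w‖ ^ k with hE1
  set E2 := ∑ k ∈ Finset.range (2 * n + 1), ‖e k‖ * ‖w‖ ^ k with hE2
  have hs0 : 0 ≤ (1 + (1 - 1 / (n : ℝ))) / 2 := by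
    have : 1 / (n : ℝ) ≤ 1 := by
      rw [div_le_one hn0]; exact_mod_cast hn
    linarith
  have hs1 : (1 + (1 - 1 / (n : ℝ))) / 2 < 1 := by
    have : 0 < 1 / (n : ℝ) := by positivity
    linarith
  obtain ⟨N, hN1, hN2, hN3⟩ := ((small_pow q E1 (1 / n) hq0 hq1 (by positivity)).and
    ((small_pow q E2 (c / 4) hq0 hq1 (by positivity)).and
    (small_pow _ E2 (1 / n) hs0 hs1 (by positivity)))).exists
  set f := comb T τ N (2 * n) e with hf
  have hfl : c / 4 ≤ ‖f‖ := by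
    have h1 := comb_lower hT hτ1 N (2 * n) n (by omega) e hVret hq0 hq zs rfl hτV
    have h2 : c / 2 ≤ ‖e n‖ * ‖W w n zs‖ := by
      have h3 : ‖e n‖ = (r ^ n)⁻¹ := by
        simp only [e]; rw [tent_mid, Complex.ofReal_one, one_mul, norm_inv, norm_pow]
      have h4 : c / 2 * r ^ n < ‖W w n zs‖ := hzsO.2
      rw [h3]
      have h5 : 0 < r ^ n := by positivity
      rw [inv_mul_eq_div, le_div_iff₀ h5]
      exact h4.le
    linarith
  have hf0 : 0 < ‖f‖ := by linarith [show 0 < c / 4 by positivity]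
  have hR : ‖T f - l • f‖ ≤ (2 * C * r + 1) / n := by
    rw [hf, comb_diff (w := w) τ N n e l he0 he1]
    have h1 := comb_bound hT hτ1 N (2 * n) d hVret hq0 hq
      (M := 2 * C * r / n) (by positivity) (by
        intro k hk z hkz
        have h2 := hUb k hk z (hVU hkz)
        have h3 := hdn k
        have h4 : 0 < r ^ k := by positivity
        calc ‖d k‖ * ‖W w k z‖ ≤ ((1 / n) * r / r ^ k) * (2 * C * r ^ k) := by gcongr
          _ = 2 * C * r / n := by field_simp)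
    refine h1.trans ?_
    have h5 : (2 * C * r + 1) / (n : ℝ) = 2 * C * r / n + 1 / n := by ring
    rw [h5]
    linarith
  have hin : ∀ z : D, ‖(z : ℂ)‖ ≤ 1 - 1 / n → ‖f.1 z‖ ≤ 1 / n := by
    intro z hz
    exact (comb_inner hT hτ1 N (2 * n) e z hz).trans hN3
  have hinv : ‖f‖⁻¹ ≤ 4 / c := by
    rw [inv_eq_one_div, div_le_div_iff₀ hf0 hc]
    linarith
  refine ⟨((‖f‖⁻¹ : ℝ) : ℂ) • f, ?_, ?_, ?_⟩
  · rw [norm_smul, Complex.norm_real, Real.norm_eq_abs, abs_of_pos (inv_pos.mpr hf0),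
      inv_mul_cancel₀ hf0.ne']
  · have h1 : T (((‖f‖⁻¹ : ℝ) : ℂ) • f) - l • (((‖f‖⁻¹ : ℝ) : ℂ) • f) =
        ((‖f‖⁻¹ : ℝ) : ℂ) • (T f - l • f) := by
      rw [map_smul, smul_sub, smul_comm l]
    rw [h1, norm_smul, Complex.norm_real, Real.norm_eq_abs, abs_of_pos (inv_pos.mpr hf0)]
    calc ‖f‖⁻¹ * ‖T f - l • f‖ ≤ (4 / c) * ((2 * C * r + 1) / n) := by gcongr
      _ = 4 / c * (2 * C * r + 1) / n := by ring
  · intro z hz
    have h1 : ((((‖f‖⁻¹ : ℝ) : ℂ) • f) : DA).1 z = ((‖f‖⁻¹ : ℝ) : ℂ) * f.1 z := rfl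
    rw [h1, norm_mul, Complex.norm_real, Real.norm_eq_abs, abs_of_pos (inv_pos.mpr hf0)]
    have h2 : 0 ≤ 2 * C * r := by positivity
    calc ‖f‖⁻¹ * ‖f.1 z‖ ≤ (4 / c) * (1 / n) := by
          gcongr
          exact hin z hz
      _ ≤ (4 / c) * ((2 * C * r + 1) / n) := by
          gcongr
          linarith
      _ = 4 / c * (2 * C * r + 1) / n := by ring

/-- a function in the disc algebra which vanishes in the open disc is zero -/
lemma zero_of_open (y : DA) (h : ∀ z : D, ‖(z : ℂ)‖ < 1 → y.1 z = 0) : y = 0 := by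
  apply Subtype.ext
  apply ContinuousMap.ext
  intro z
  show y.1 z = 0
  let u : ℕ → D := fun n => ⟨(1 - 1 / ((n : ℝ) + 1) : ℝ) * z, by
    rw [mem_closedBall_zero_iff, norm_mul, Complex.norm_real, Real.norm_eq_abs]
    have h1 : 0 < 1 / ((n : ℝ) + 1) := by positivity
    have h2 : 1 / ((n : ℝ) + 1) ≤ 1 := by
      rw [div_le_one (by positivity)]
      have : (0 : ℝ) ≤ n := Nat.cast_nonneg n
      linarith
    have h3 : |1 - 1 / ((n : ℝ) + 1)| ≤ 1 := by rw [abs_le]; constructor <;> linarith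
    exact mul_le_one₀ h3 (norm_nonneg _) (nD z)⟩
  have hu : Tendsto u atTop (𝓝 z) := by
    rw [tendsto_subtype_rng]
    have h1 : Tendsto (fun n : ℕ => ((1 - 1 / ((n : ℝ) + 1) : ℝ) : ℂ) * (z : ℂ)) atTop
        (𝓝 (((1 - 0 : ℝ) : ℂ) * z)) := by
      apply Tendsto.mul_const
      exact (Complex.continuous_ofReal.tendsto _).comp
        (tendsto_const_nhds.sub tendsto_one_div_add_atTop_nhds_zero_nat)
    rw [sub_zero, Complex.ofReal_one, one_mul] at h1
    exact h1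
  have h2 : Tendsto (fun n => y.1 (u n)) atTop (𝓝 (y.1 z)) :=
    (y.1.continuous.tendsto z).comp hu
  have h3 : ∀ n, y.1 (u n) = 0 := by
    intro n
    apply h
    show ‖((1 - 1 / ((n : ℝ) + 1) : ℝ) : ℂ) * (z : ℂ)‖ < 1
    rw [norm_mul, Complex.norm_real, Real.norm_eq_abs]
    have h1 : 0 < 1 / ((n : ℝ) + 1) := by positivity
    have h2 : 1 / ((n : ℝ) + 1) ≤ 1 := by
      rw [div_le_one (by positivity)]
      have : (0 : ℝ) ≤ n := Nat.cast_nonneg n
      linarith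
    have h3 : |1 - 1 / ((n : ℝ) + 1)| < 1 := by rw [abs_lt]; constructor <;> linarith
    have h4 := nD z
    have h5 := norm_nonneg (z : ℂ)
    nlinarith [abs_nonneg (1 - 1 / ((n : ℝ) + 1))]
  simp only [h3] at h2
  exact tendsto_nhds_unique h2 tendsto_const_nhds

theorem spec : S_SPEC := by
  intro w T hT p t hp ht1 hper h4 hw hz l hl
  obtain ⟨A, hA, hf⟩ := approx hT hp ht1 hper h4 hw hz hl
  choose f hf1 hf2 hf3 using fun n : ℕ => hf (n + 1) (by omega)
  refine ⟨f, hf1, ?_, ?_⟩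
  · intro φ hφ y hy
    have hy0 : y = 0 := by
      apply zero_of_open
      intro z hz
      have h1 : Tendsto (fun n => (f (φ n)).1 z) atTop (𝓝 (y.1 z)) := by
        have hcont : Continuous (fun g : DA => g.1 z) :=
          (continuous_eval_const z).comp continuous_subtype_val
        exact (hcont.tendsto y).comp hy
      have h2 : Tendsto (fun n => (f (φ n)).1 z) atTop (𝓝 0) := by
        have h3 : Tendsto (fun n : ℕ => A / ((φ n + 1 : ℕ) : ℝ)) atTop (𝓝 0) := by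
          have h4 : Tendsto (fun n : ℕ => A / (n : ℝ)) atTop (𝓝 0) :=
            tendsto_const_div_atTop_nhds_zero_nat A
          exact h4.comp ((tendsto_add_atTop_nat 1).comp hφ.tendsto_atTop)
        have h5 : ∀ᶠ n : ℕ in atTop, ‖(z : ℂ)‖ ≤ 1 - 1 / ((φ n + 1 : ℕ) : ℝ) := by
          have h6 : Tendsto (fun n : ℕ => 1 / ((φ n + 1 : ℕ) : ℝ)) atTop (𝓝 0) := by
            have h4 : Tendsto (fun n : ℕ => (1 : ℝ) / (n : ℝ)) atTop (𝓝 0) :=
              tendsto_const_div_atTop_nhds_zero_nat 1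
            exact h4.comp ((tendsto_add_atTop_nat 1).comp hφ.tendsto_atTop)
          have h7 : 0 < 1 - ‖(z : ℂ)‖ := by linarith
          filter_upwards [h6.eventually_lt_const h7] with n hn
          linarith
        apply squeeze_zero_norm' _ h3
        filter_upwards [h5] with n hn
        exact hf3 (φ n) z hn
      exact tendsto_nhds_unique h1 h2
    have h8 : Tendsto (fun n => ‖f (φ n)‖) atTop (𝓝 ‖y‖) := hy.norm
    rw [hy0, norm_zero] at h8
    simp only [hf1] at h8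
    exact one_ne_zero (tendsto_nhds_unique tendsto_const_nhds h8)
  · have h3 : Tendsto (fun n : ℕ => A / ((n + 1 : ℕ) : ℝ)) atTop (𝓝 0) := by
      have h4 : Tendsto (fun n : ℕ => A / (n : ℝ)) atTop (𝓝 0) :=
        tendsto_const_div_atTop_nhds_zero_nat A
      exact h4.comp (tendsto_add_atTop_nat 1)
    apply squeeze_zero_norm _ h3
    intro n
    exact hf2 n

end Pool.Agent.Q87.SFSpec
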