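import Mathlib
import Pool.Agent.Q87.SF.Spec

/-! Project SF (helper87): assembly. -/

set_option autoImplicit false

namespace Pool.Agent.Q87.SFMain

open Filter Topology Metric Pool.Agent.Q87.SF Pool.Agent.Q87.SFSpec

/-- the weighted composition operator -/
noncomputable def opFun (w f : DA) : DA :=
  ⟨⟨fun z => w.1 z * f.1 (b z), w.1.continuous.mul (f.1.continuous.comp b_cont)⟩, by
    obtain ⟨F, hF, hF'⟩ := f.2
    obtain ⟨G, hG, hG'⟩ := w.2
    refine ⟨fun z => G z * F (z ^ 4), ?_, ?_⟩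
    · apply hG.mul
      apply hF.comp (by fun_prop)
      intro z hz
      rw [mem_ball_zero_iff] at hz ⊢
      rw [norm_pow]
      exact pow_lt_one₀ (norm_nonneg _) hz (by norm_num)
    · intro z
      show w.1 z * f.1 (b z) = _
      rw [hF', hG']
      rfl⟩

lemma opFun_val (w f : DA) (z : D) : (opFun w f).1 z = w.1 z * f.1 (b z) := rfl

lemma ext' {f g : DA} (h : ∀ z : D, f.1 z = g.1 z) : f = g :=
  Subtype.ext (ContinuousMap.ext h)

noncomputable def opT (w : DA) : DA →L[ℂ] DA :=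
  LinearMap.mkContinuous
    { toFun := opFun w
      map_add' := by
        intro f g
        apply ext'
        intro z
        have h1 : (opFun w f + opFun w g).1 z = (opFun w f).1 z + (opFun w g).1 z := rfl
        have h2 : (f + g).1 (b z) = f.1 (b z) + g.1 (b z) := rfl
        rw [h1, opFun_val, opFun_val, opFun_val, h2]
        ring
      map_smul' := by
        intro c f
        apply ext'
        intro z
        have h1 : ((RingHom.id ℂ) c • opFun w f).1 z = c * (opFun w f).1 z := rfl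
        have h2 : (c • f).1 (b z) = c * f.1 (b z) := rfl
        rw [h1, opFun_val, opFun_val, h2]
        ring } ‖w‖ (by
      intro f
      apply norm_le_of_forall _ (by positivity)
      intro z
      show ‖w.1 z * f.1 (b z)‖ ≤ _
      rw [norm_mul]
      exact mul_le_mul (w.1.norm_coe_le_norm z) (f.1.norm_coe_le_norm _) (norm_nonneg _)
        (norm_nonneg _))

lemma opT_wc (w : DA) : IsWC (fun z => z ^ 4) w (opT w) := by
  intro f z z' h
  have h1 : z' = b z := Subtype.ext h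
  rw [h1]
  rfl

/-! ### the partial products -/

lemma PP_factor_nonneg (m : ℕ → ℕ) (ζ : ℕ → ℕ → ℂ) (α : ℕ → ℝ) (j a : ℕ) (z : ℂ) :
    0 ≤ (‖z - ζ j a‖ / 2) ^ (α j) := Real.rpow_nonneg (by positivity) _

lemma PP_nonneg (m : ℕ → ℕ) (ζ : ℕ → ℕ → ℂ) (α : ℕ → ℝ) (J : ℕ) (z : ℂ) : 0 ≤ PP m ζ α J z :=
  Finset.prod_nonneg fun j _ => Finset.prod_nonneg fun a _ => PP_factor_nonneg m ζ α j a z

lemma factor_le_one {ζ : ℕ → ℕ → ℂ} {α : ℕ → ℝ} (hζ : ∀ j a, ‖ζ j a‖ = 1)
    (hα : ∀ j, 0 < α j) (j a : ℕ) {z : ℂ} (hz : ‖z‖ ≤ 1) : (‖z - ζ j a‖ / 2) ^ (α j) ≤ 1 := by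
  apply Real.rpow_le_one (by positivity) _ (hα j).le
  have := norm_sub_le z (ζ j a)
  rw [hζ] at this
  linarith

lemma inner_le_one {m : ℕ → ℕ} {ζ : ℕ → ℕ → ℂ} {α : ℕ → ℝ} (hζ : ∀ j a, ‖ζ j a‖ = 1)
    (hα : ∀ j, 0 < α j) (j : ℕ) {z : ℂ} (hz : ‖z‖ ≤ 1) :
    ∏ a ∈ Finset.range (m j), (‖z - ζ j a‖ / 2) ^ (α j) ≤ 1 :=
  Finset.prod_le_one (fun a _ => PP_factor_nonneg m ζ α j a z)
    (fun a _ => factor_le_one hζ hα j a hz)

lemma PP_anti {m : ℕ → ℕ} {ζ : ℕ → ℕ → ℂ} {α : ℕ → ℝ} (hζ : ∀ j a, ‖ζ j a‖ = 1)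
    (hα : ∀ j, 0 < α j) {z : ℂ} (hz : ‖z‖ ≤ 1) : Antitone (fun J => PP m ζ α J z) := by
  apply antitone_nat_of_succ_le
  intro J
  unfold PP
  rw [Finset.prod_range_succ]
  exact mul_le_of_le_one_right (PP_nonneg m ζ α J z) (inner_le_one hζ hα J hz)

lemma PP_le_one {m : ℕ → ℕ} {ζ : ℕ → ℕ → ℂ} {α : ℕ → ℝ} (hζ : ∀ j a, ‖ζ j a‖ = 1)
    (hα : ∀ j, 0 < α j) (J : ℕ) {z : ℂ} (hz : ‖z‖ ≤ 1) : PP m ζ α J z ≤ 1 :=
  Finset.prod_le_one (fun j _ => Finset.prod_nonneg fun a _ => PP_factor_nonneg m ζ α j a z)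
    (fun j _ => inner_le_one hζ hα j hz)

lemma PP_bdd {m : ℕ → ℕ} {ζ : ℕ → ℕ → ℂ} {α : ℕ → ℝ} (z : ℂ) :
    BddBelow (Set.range fun J => PP m ζ α J z) :=
  ⟨0, by rintro _ ⟨J, rfl⟩; exact PP_nonneg m ζ α J z⟩

lemma PP_tendsto {m : ℕ → ℕ} {ζ : ℕ → ℕ → ℂ} {α : ℕ → ℝ} (hζ : ∀ j a, ‖ζ j a‖ = 1)
    (hα : ∀ j, 0 < α j) {z : ℂ} (hz : ‖z‖ ≤ 1) :
    Tendsto (fun J => PP m ζ α J z) atTop (𝓝 (⨅ J, PP m ζ α J z)) :=
  tendsto_atTop_ciInf (PP_anti hζ hα hz) (PP_bdd z)

/-! ### parameters -/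

lemma norm_ee (y : ℝ) : ‖ee y‖ = 1 := by
  unfold ee
  have : (2 * Real.pi * y * Complex.I : ℂ) = ((2 * Real.pi * y : ℝ) : ℂ) * Complex.I := by
    push_cast; ring
  rw [this, Complex.norm_exp_ofReal_mul_I]

lemma norm_zt (j a : ℕ) : ‖zt j a‖ = 1 := by
  unfold zt
  rw [norm_mul, norm_pow, Complex.norm_I, one_pow, norm_ee, one_mul]

lemma al_pos (j : ℕ) : 0 < al j := by unfold al; positivity

/-- the sum of the squares -/
noncomputable def sg (J : ℕ) : ℝ := ∑ j ∈ Finset.range J, 1 / ((j : ℝ) + 1) ^ 2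

lemma summable_sq : Summable (fun j : ℕ => 1 / ((j : ℝ) + 1) ^ 2) := by
  have h1 : Summable (fun j : ℕ => 1 / (j : ℝ) ^ 2) := Real.summable_one_div_nat_pow.mpr (by norm_num)
  have h2 := (summable_nat_add_iff 1).mpr h1
  simpa using h2

noncomputable def SS : ℝ := ∑' j : ℕ, 1 / ((j : ℝ) + 1) ^ 2

lemma sg_tendsto : Tendsto sg atTop (𝓝 SS) := summable_sq.hasSum.tendsto_sum_nat

lemma sg_le (J : ℕ) : sg J ≤ SS := summable_sq.sum_le_tsum _ fun j _ => by positivity

lemma al_mm (j : ℕ) : al j * mm j = 3 * (1 / ((j : ℝ) + 1) ^ 2) := by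
  unfold al mm
  push_cast
  field_simp

/-- the product over an orbit -/
lemma orbit_prod (hU : S_UPX) (i J : ℕ) :
    ∏ n ∈ Finset.range (2 ^ i), PP mm zt al J (ee (Y i n)) =
      (if i < J then (4 : ℝ) ^ ((kap i : ℝ) * al i) else 1) * 2 ^ (-(3 * 2 ^ i * sg J)) := by
  induction J with
  | zero =>
    simp [PP, sg]
  | succ J ih =>
    have h1 : ∏ n ∈ Finset.range (2 ^ i), PP mm zt al (J + 1) (ee (Y i n)) =
        (∏ n ∈ Finset.range (2 ^ i), PP mm zt al J (ee (Y i n))) *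
        ∏ n ∈ Finset.range (2 ^ i), ∏ a ∈ Finset.range (mm J), (‖ee (Y i n) - zt J a‖ / 2) ^ (al J) := by
      rw [← Finset.prod_mul_distrib]
      apply Finset.prod_congr rfl
      intro n _
      unfold PP
      rw [Finset.prod_range_succ]
    rw [h1, ih]
    have h2 : ∏ n ∈ Finset.range (2 ^ i), ∏ a ∈ Finset.range (mm J),
        (‖ee (Y i n) - zt J a‖ / 2) ^ (al J) =
        ((∏ n ∈ Finset.range (2 ^ i), ∏ a ∈ Finset.range (mm J), ‖ee (Y i n) - zt J a‖) /
          2 ^ (2 ^ i * mm J)) ^ (al J) := by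
      have h3 : ∀ n ∈ Finset.range (2 ^ i), ∏ a ∈ Finset.range (mm J),
          (‖ee (Y i n) - zt J a‖ / 2) ^ (al J) =
          (∏ a ∈ Finset.range (mm J), (‖ee (Y i n) - zt J a‖ / 2)) ^ (al J) := by
        intro n _
        rw [Real.finsetProd_rpow]
        intro a _; positivity
      rw [Finset.prod_congr rfl h3, Real.finsetProd_rpow]
      · congr 1
        simp only [Finset.prod_div_distrib, Finset.prod_const, Finset.card_range]
        rw [← pow_mul, mul_comm (mm J)]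
      · intro n _
        exact Finset.prod_nonneg fun a _ => by positivity
    rw [h2, hU i J]
    have h4 : sg (J + 1) = sg J + 1 / ((J : ℝ) + 1) ^ 2 := by
      unfold sg; rw [Finset.sum_range_succ]
    have h5 : ∀ x : ℝ, 0 ≤ x → (x / 2 ^ (2 ^ i * mm J)) ^ (al J) =
        x ^ (al J) * 2 ^ (-(3 * 2 ^ i * (1 / ((J : ℝ) + 1) ^ 2))) := by
      intro x hx
      rw [Real.div_rpow hx (by positivity), ← Real.rpow_natCast 2, ← Real.rpow_mul (by norm_num),
        Real.rpow_neg (by norm_num), div_eq_mul_inv]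
      congr 3
      push_cast
      have := al_mm J
      calc (2 : ℝ) ^ i * (mm J : ℝ) * al J = 2 ^ i * (al J * mm J) := by ring
        _ = _ := by rw [this]; ring
    have h6 : (2 : ℝ) ^ (-(3 * 2 ^ i * sg (J + 1))) = 2 ^ (-(3 * 2 ^ i * sg J)) *
        2 ^ (-(3 * 2 ^ i * (1 / ((J : ℝ) + 1) ^ 2))) := by
      rw [← Real.rpow_add (by norm_num), h4]
      congr 1; ring
    rw [h6]
    rcases lt_trichotomy i J with h | h | h
    · rw [if_pos h, if_neg h.ne, if_pos (by omega), h5 1 zero_le_one, Real.one_rpow]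
      ring
    · subst h
      rw [if_neg (lt_irrefl _), if_pos rfl, if_pos (by omega), h5 _ (by positivity),
        ← Real.rpow_natCast 4, ← Real.rpow_mul (by norm_num)]
      ring
    · rw [if_neg (by omega), if_neg (by omega), if_neg (by omega), h5 1 zero_le_one, Real.one_rpow]
      ring

lemma kap_le (i : ℕ) : kap i ≤ 4 ^ i := by
  classical
  unfold kap
  refine (Finset.card_filter_le _ _).trans ?_
  rw [Finset.card_product, Finset.card_range, ← mul_pow]
  norm_num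

lemma le_kap (i : ℕ) : 1 ≤ kap i := by
  classical
  unfold kap
  apply Finset.card_pos.mpr
  exact ⟨(0, 0), by simp⟩

/-- the radii -/
noncomputable def rr (i : ℕ) : ℝ := 2 ^ (-(3 * SS)) * 4 ^ ((kap i : ℝ) * al i / 2 ^ i)

lemma rr_pow (i : ℕ) : rr i ^ (2 ^ i) = 4 ^ ((kap i : ℝ) * al i) * 2 ^ (-(3 * 2 ^ i * SS)) := by
  unfold rr
  rw [mul_pow, ← Real.rpow_natCast, ← Real.rpow_natCast, ← Real.rpow_mul (by norm_num),
    ← Real.rpow_mul (by norm_num), mul_comm]
  congr 2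
  · push_cast
    field_simp
  · push_cast
    ring

lemma rr_pos (i : ℕ) : 0 < rr i := by unfold rr; positivity

lemma rr_ne (i : ℕ) : rr i ≠ 2 ^ (-(3 * SS)) := by
  unfold rr
  have h0 : (0 : ℝ) < 2 ^ (-(3 * SS)) := by positivity
  have h1 : (1 : ℝ) < 4 ^ ((kap i : ℝ) * al i / 2 ^ i) := by
    apply Real.one_lt_rpow (by norm_num)
    have : (0 : ℝ) < kap i := by exact_mod_cast le_kap i
    have := al_pos i
    positivity
  intro h
  have h2 : (2 : ℝ) ^ (-(3 * SS)) * 4 ^ ((kap i : ℝ) * al i / 2 ^ i) > 2 ^ (-(3 * SS)) := by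
    exact lt_mul_of_one_lt_right h0 h1
  exact absurd h h2.ne'

lemma rr_tendsto : Tendsto rr atTop (𝓝 (2 ^ (-(3 * SS)))) := by
  have h1 : Tendsto (fun i => (kap i : ℝ) * al i / 2 ^ i) atTop (𝓝 0) := by
    have h2 : Tendsto (fun i : ℕ => 1 / ((i : ℝ) + 1)) atTop (𝓝 0) :=
      tendsto_one_div_add_atTop_nhds_zero_nat
    apply squeeze_zero _ _ h2
    · intro i
      have := al_pos i
      positivity
    · intro i
      have h3 : (kap i : ℝ) ≤ 4 ^ i := by exact_mod_cast kap_le i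
      have h4 : (4 : ℝ) ^ i = 2 ^ i * 2 ^ i := by rw [← mul_pow]; norm_num
      have h5 := al_pos i
      calc (kap i : ℝ) * al i / 2 ^ i ≤ 4 ^ i * al i / 2 ^ i := by gcongr
        _ = 1 / ((i : ℝ) + 1) ^ 2 := by
          rw [h4]; unfold al; field_simp
        _ ≤ 1 / ((i : ℝ) + 1) := by
          apply one_div_le_one_div_of_le (by positivity)
          have : (0 : ℝ) ≤ i := Nat.cast_nonneg i
          nlinarith
  have h2 : Tendsto (fun i => (4 : ℝ) ^ ((kap i : ℝ) * al i / 2 ^ i)) atTop (𝓝 (4 ^ (0 : ℝ))) :=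
    (Real.continuous_const_rpow (by norm_num)).continuousAt.tendsto.comp h1
  have h3 := h2.const_mul ((2 : ℝ) ^ (-(3 * SS)))
  rw [Real.rpow_zero, mul_one] at h3
  exact h3

lemma blaschke4 : IsBlaschke (fun z => z ^ 4) 4 := by
  refine ⟨0, fun _ => 0, fun _ => by simp, fun z => ?_⟩
  simp

theorem main (hW : S_W) (hPER : S_PER) (hLOW : S_LOW) (hU : S_UPX) :
    ∃ (w : DA) (T : DA →L[ℂ] DA), IsWC (fun z => z ^ 4) w T ∧
      ∃ r : ℝ, 0 < r ∧ AccPt r (𝓟 (Lam T)) := by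
  obtain ⟨w, hw⟩ := hW mm zt al norm_zt al_pos (by
    simp only [al_mm]
    exact summable_sq.mul_left 3) hLOW
  refine ⟨w, opT w, opT_wc w, 2 ^ (-(3 * SS)), by positivity, ?_⟩
  obtain ⟨hp1, hp2, hp3, hp4, hp5, hp6, hp7⟩ := hPER
  have hmem : ∀ i, rr i ∈ Lam (opT w) := by
    intro i
    refine ⟨(rr_pos i).le, ?_⟩
    intro l hl
    let t : ℕ → D := fun n => ⟨ee (Y i n), by
      rw [mem_closedBall_zero_iff, norm_ee]⟩
    have ht : ∀ n, (t n : ℂ) = ee (Y i n) := fun n => rfl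
    have hper : ∀ n, t (n + 2 ^ i) = t n := fun n => Subtype.ext (by
      rw [ht, ht, hp3])
    -- the product over the orbit in the limit
    have hlim : Tendsto (fun J => ∏ n ∈ Finset.range (2 ^ i), PP mm zt al J (ee (Y i n))) atTop
        (𝓝 (∏ n ∈ Finset.range (2 ^ i), ‖w.1 (t n)‖)) := by
      apply tendsto_finsetProd
      intro n _
      rw [hw]
      exact PP_tendsto norm_zt al_pos (norm_ee _).le
    have hlim2 : Tendsto (fun J => ∏ n ∈ Finset.range (2 ^ i), PP mm zt al J (ee (Y i n))) atTop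
        (𝓝 (rr i ^ (2 ^ i))) := by
      have h1 : Tendsto (fun J => (4 : ℝ) ^ ((kap i : ℝ) * al i) * 2 ^ (-(3 * 2 ^ i * sg J))) atTop
          (𝓝 (4 ^ ((kap i : ℝ) * al i) * 2 ^ (-(3 * 2 ^ i * SS)))) := by
        apply Tendsto.const_mul
        have h2 : Tendsto (fun J => -(3 * 2 ^ i * sg J)) atTop (𝓝 (-(3 * 2 ^ i * SS))) :=
          (sg_tendsto.const_mul _).neg
        exact (Real.continuous_const_rpow (by norm_num)).continuousAt.tendsto.comp h2
      rw [rr_pow]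
      apply h1.congr'
      filter_upwards [eventually_gt_atTop i] with J hJ
      rw [orbit_prod hU, if_pos hJ]
    have hprod : ∏ n ∈ Finset.range (2 ^ i), ‖w.1 (t n)‖ = rr i ^ (2 ^ i) :=
      tendsto_nhds_unique hlim hlim2
    have hne0 : ∀ n ∈ Finset.range (2 ^ i), w.1 (t n) ≠ 0 := by
      intro n hn h0
      have h1 : ∏ n ∈ Finset.range (2 ^ i), ‖w.1 (t n)‖ = 0 :=
        Finset.prod_eq_zero hn (by rw [h0, norm_zero])
      rw [hprod] at h1
      exact (pow_pos (rr_pos i) _).ne' h1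
    have hpp : 0 < 2 ^ i := by positivity
    have hmod : ∀ n, t n = t (n % 2 ^ i) := by
      intro n
      have h1 : Function.Periodic t (2 ^ i) := hper
      exact (h1.map_mod_nat n).symm
    apply spec w (opT w) (opT_wc w) (2 ^ i) t hpp (fun n => norm_ee _) hper
    · intro n
      rw [ht, ht]
      exact hp6 i n
    · intro n
      rw [hmod]
      exact hne0 _ (Finset.mem_range.mpr (Nat.mod_lt _ hpp))
    · intro n k hk z hz
      have hk' := Finset.mem_Icc.mp hk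
      rw [← norm_eq_zero, hw]
      apply le_antisymm
      · refine (ciInf_le (PP_bdd (z : ℂ)) (i + 1)).trans (le_of_eq ?_)
        unfold PP
        rw [Finset.prod_range_succ]
        have h1 : ∏ a ∈ Finset.range (mm i), (‖(z : ℂ) - zt i a‖ / 2) ^ (al i) = 0 := by
          have hnm : n % 2 ^ i < 2 ^ i := Nat.mod_lt _ hpp
          apply Finset.prod_eq_zero (i := 3 * (n % 2 ^ i) + (k - 1))
          · rw [Finset.mem_range]
            unfold mm
            omega
          · have h2 : (z : ℂ) = zt i (3 * (n % 2 ^ i) + (k - 1)) := by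
              unfold zt
              have e1 : (3 * (n % 2 ^ i) + (k - 1)) % 3 + 1 = k := by omega
              have e2 : (3 * (n % 2 ^ i) + (k - 1)) / 3 = n % 2 ^ i := by omega
              rw [e1, e2, hz, hmod]
            rw [h2, sub_self, norm_zero, zero_div]
            exact Real.zero_rpow (al_pos i).ne'
        rw [h1, mul_zero]
      · exact Real.iInf_nonneg fun J => PP_nonneg mm zt al J z
    · rw [hl, hprod]
  rw [accPt_iff_frequently]
  apply rr_tendsto.frequently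
  apply Frequently.of_forall
  intro i
  exact ⟨rr_ne i, hmem i⟩

end Pool.Agent.Q87.SFMain
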