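import Mathlib
import Pool.Agent.Q87.SF.Stm

/-! Project SF (helper87): SF-PER, SF-CLOSE, SF-NP. -/

set_option autoImplicit false

namespace Pool.Agent.Q87.SFPer

open Filter Topology Metric Pool.Agent.Q87.SF

lemma ep_per (j n : ℕ) : ep j (n + 2 ^ j) = ep j n := by
  induction j generalizing n with
  | zero => rfl
  | succ j ih =>
    have h1 : (n + 2 ^ (j + 1)) % 2 = n % 2 := by rw [pow_succ]; omega
    have h2 : (n + 2 ^ (j + 1)) / 2 = n / 2 + 2 ^ j := by rw [pow_succ]; omega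
    simp only [ep]
    rw [h1, h2, ih]

lemma ep_01 (j n : ℕ) : ep j n = 0 ∨ ep j n = 1 := by
  induction j generalizing n with
  | zero => left; rfl
  | succ j ih =>
    simp only [ep]
    split_ifs
    · left; rfl
    · rcases ih (n / 2) with h | h <;> rw [h] <;> simp

lemma ep_le (j n : ℕ) : (ep j n : ℝ) ≤ 1 := by
  rcases ep_01 j n with h | h <;> rw [h] <;> simp

lemma Y_per (j n : ℕ) : Y j (n + 2 ^ j) = Y j n := by
  unfold Y
  apply tsum_congr
  intro k
  have : n + 2 ^ j + k = (n + k) + 2 ^ j := by ring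
  rw [this, ep_per]

lemma sum_geo : HasSum (fun k : ℕ => (1 : ℝ) / 4 ^ (k + 1)) (1 / 3) := by
  have h1 := (hasSum_geometric_of_lt_one (r := (1 / 4 : ℝ)) (by norm_num) (by norm_num)).mul_left (1 / 4)
  have h2 : (1 / 4 : ℝ) * (1 - 1 / 4)⁻¹ = 1 / 3 := by norm_num
  rw [h2] at h1
  have h3 : (fun k : ℕ => (1 / 4 : ℝ) * (1 / 4) ^ k) = fun k : ℕ => (1 : ℝ) / 4 ^ (k + 1) := by
    funext k
    rw [pow_succ, div_pow, one_pow]
    field_simp
  rw [h3] at h1
  exact h1

lemma term_le (j n k : ℕ) : (1 + (ep j (n + k) : ℝ)) / 4 ^ (k + 1) ≤ 2 * (1 / 4 ^ (k + 1)) := by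
  have := ep_le j (n + k)
  rw [mul_one_div]
  gcongr
  linarith

lemma Y_summable (j n : ℕ) : Summable (fun k : ℕ => (1 + (ep j (n + k) : ℝ)) / 4 ^ (k + 1)) :=
  Summable.of_nonneg_of_le (fun k => by positivity) (term_le j n) (sum_geo.summable.mul_left 2)

lemma Y_step (j n : ℕ) : 4 * Y j n = 1 + (ep j n : ℝ) + Y j (n + 1) := by
  unfold Y
  rw [(Y_summable j n).tsum_eq_zero_add, mul_add, ← tsum_mul_left]
  congr 1
  · simp only [add_zero, zero_add, pow_one]
    field_simp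
  · apply tsum_congr
    intro k
    have : n + (k + 1) = n + 1 + k := by ring
    rw [this, pow_succ _ (k + 1)]
    field_simp

lemma Y_bd (j n : ℕ) : 1 / 3 ≤ Y j n ∧ Y j n ≤ 2 / 3 := by
  constructor
  · rw [← sum_geo.tsum_eq]
    unfold Y
    apply sum_geo.summable.tsum_le_tsum _ (Y_summable j n)
    intro k
    gcongr
    have : (0 : ℝ) ≤ ep j (n + k) := Nat.cast_nonneg _
    linarith
  · have h1 : (2 / 3 : ℝ) = ∑' k : ℕ, 2 * ((1 : ℝ) / 4 ^ (k + 1)) := by
      rw [tsum_mul_left, sum_geo.tsum_eq]; norm_num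
    rw [h1]
    unfold Y
    exact (Y_summable j n).tsum_le_tsum (term_le j n) (sum_geo.summable.mul_left 2)

lemma ee_pow (y : ℝ) : ee y ^ 4 = ee (4 * y) := by
  unfold ee
  rw [← Complex.exp_nat_mul]
  congr 1
  push_cast
  ring

lemma ee_add_nat (m : ℕ) (y : ℝ) : ee (m + y) = ee y := by
  unfold ee
  have : (2 * Real.pi * ((m + y : ℝ) : ℂ) * Complex.I : ℂ) =
      2 * Real.pi * y * Complex.I + m * (2 * Real.pi * Complex.I) := by push_cast; ring
  rw [this]
  exact Complex.exp_periodic.nat_mul m _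

lemma ee_step (j n : ℕ) : ee (Y j n) ^ 4 = ee (Y j (n + 1)) := by
  rw [ee_pow, Y_step]
  have := ee_add_nat (1 + ep j n) (Y j (n + 1))
  push_cast at this
  exact this

lemma ee_norm (y : ℝ) : ‖ee y‖ = 1 := by
  unfold ee
  have : (2 * Real.pi * y * Complex.I : ℂ) = ((2 * Real.pi * y : ℝ) : ℂ) * Complex.I := by
    push_cast; ring
  rw [this, Complex.norm_exp_ofReal_mul_I]

theorem per : S_PER := ⟨ep_per, ep_01, Y_per, Y_step, Y_bd, ee_step, ee_norm⟩

theorem close_pts : S_CLOSE := by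
  intro i j n m L
  induction L generalizing n m with
  | zero =>
    intro _
    have h1 := Y_bd i n
    have h2 := Y_bd j m
    rw [pow_zero, mul_one, abs_le]
    constructor <;> linarith [h1.1, h1.2, h2.1, h2.2]
  | succ L ih =>
    intro h
    have h1 := Y_step i n
    have h2 := Y_step j m
    have h3 : ep i n = ep j m := by simpa using h 0 (by omega)
    have h4 := ih (n + 1) (m + 1) (fun l hl => by
      have := h (l + 1) (by omega)
      have e1 : n + 1 + l = n + (l + 1) := by ring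
      have e2 : m + 1 + l = m + (l + 1) := by ring
      rw [e1, e2, this])
    rw [h3] at h1
    have h5 : 4 * (Y i n - Y j m) = Y i (n + 1) - Y j (m + 1) := by linarith
    have h6 : |Y i n - Y j m| = |Y i (n + 1) - Y j (m + 1)| / 4 := by
      rw [← h5, abs_mul, abs_of_pos (by norm_num : (0 : ℝ) < 4)]
      ring
    rw [h6, pow_succ]
    have h7 : (1 : ℝ) / (3 * (4 ^ L * 4)) = 1 / (3 * 4 ^ L) / 4 := by
      field_simp
    rw [h7]
    gcongr

lemma Y_of_ee {i j n m : ℕ} (h : ee (Y i n) = ee (Y j m)) : Y i n = Y j m := by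
  unfold ee at h
  rw [Complex.exp_eq_exp_iff_exists_int] at h
  obtain ⟨k, hk⟩ := h
  have h1 : (Y i n : ℂ) = Y j m + k := by
    have h2 : (2 * Real.pi * Complex.I : ℂ) ≠ 0 := Complex.two_pi_I_ne_zero
    apply mul_left_cancel₀ h2
    linear_combination hk
  have h3 : Y i n = Y j m + k := by exact_mod_cast h1
  have h4 := Y_bd i n
  have h5 := Y_bd j m
  have h6 : (k : ℝ) < 1 := by linarith [h4.2, h5.1]
  have h7 : (-1 : ℝ) < k := by linarith [h4.1, h5.2]
  have h8 : k < 1 := by exact_mod_cast h6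
  have h9 : -1 < k := by exact_mod_cast h7
  have h10 : k = 0 := by omega
  rw [h3, h10]; simp

lemma ep_of_Y {i j n m : ℕ} (h : Y i n = Y j m) :
    ep i n = ep j m ∧ Y i (n + 1) = Y j (m + 1) := by
  have h1 := Y_step i n
  have h2 := Y_step j m
  have h4 := Y_bd i (n + 1)
  have h5 := Y_bd j (m + 1)
  have h3 : ep i n = ep j m := by
    rcases ep_01 i n with a | a <;> rcases ep_01 j m with c | c <;> rw [a, c] <;>
      (rw [a] at h1; rw [c] at h2; push_cast at h1 h2; exfalso; linarith [h4.1, h4.2, h5.1, h5.2])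
  refine ⟨h3, ?_⟩
  rw [h3] at h1
  linarith

lemma ep_all {i j n m : ℕ} (h : Y i n = Y j m) (l : ℕ) :
    Y i (n + l) = Y j (m + l) ∧ ep i (n + l) = ep j (m + l) := by
  have h1 : Y i (n + l) = Y j (m + l) := by
    induction l with
    | zero => exact h
    | succ l ih => exact (ep_of_Y ih).2
  exact ⟨h1, (ep_of_Y h1).1⟩

lemma ep_odd (j k : ℕ) (h : k % 2 = 1) : ep j k = 0 := by
  cases j with
  | zero => rfl
  | succ j => simp [ep, h]

lemma ep_two (j k : ℕ) (h : k % 4 = 2) : ep (j + 1) k = 1 := by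
  have h1 : ¬ k % 2 = 1 := by omega
  simp only [ep]
  rw [if_neg h1, ep_odd j (k / 2) (by omega)]

lemma ep_scale (i j k k' : ℕ) (h : ep j k ≠ ep j k') : ep (i + j) (2 ^ i * k) ≠ ep (i + j) (2 ^ i * k') := by
  induction i with
  | zero => simpa using h
  | succ i ih =>
    have e1 : i + 1 + j = (i + j) + 1 := by ring
    have h1 : ∀ k, ¬ (2 ^ (i + 1) * k) % 2 = 1 := by
      intro k
      have : 2 ^ (i + 1) * k = 2 * (2 ^ i * k) := by ring
      rw [this]; omega
    have h2 : ∀ k, (2 ^ (i + 1) * k) / 2 = 2 ^ i * k := by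
      intro k
      have : 2 ^ (i + 1) * k = 2 * (2 ^ i * k) := by ring
      rw [this]; omega
    rw [e1]
    simp only [ep]
    rw [if_neg (h1 k), if_neg (h1 k'), h2, h2]
    rcases ep_01 (i + j) (2 ^ i * k) with a | a <;> rcases ep_01 (i + j) (2 ^ i * k') with c | c <;>
      rw [a, c] at ih <;> rw [a, c] <;> simp_all

theorem np : S_NP := by
  intro i j n m hij h
  have hY := Y_of_ee h
  obtain ⟨j', rfl⟩ : ∃ j', j = i + (j' + 1) := ⟨j - i - 1, by omega⟩
  have h1 : m ≤ 2 ^ i * (4 * m + 1) := by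
    have : 1 ≤ 2 ^ i := Nat.one_le_two_pow
    nlinarith
  obtain ⟨l, hl⟩ := Nat.exists_eq_add_of_le h1
  have h2 := (ep_all hY l).2
  have h3 := (ep_all hY (l + 2 ^ i)).2
  have e1 : n + (l + 2 ^ i) = (n + l) + 2 ^ i := by ring
  have e2 : m + (l + 2 ^ i) = 2 ^ i * (4 * m + 2) := by
    have : 2 ^ i * (4 * m + 2) = 2 ^ i * (4 * m + 1) + 2 ^ i := by ring
    rw [this, hl]; ring
  rw [e1, ep_per, e2] at h3
  rw [← hl] at h2
  have h4 : ep (j' + 1) (4 * m + 1) ≠ ep (j' + 1) (4 * m + 2) := by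
    rw [ep_odd _ _ (by omega), ep_two _ _ (by omega)]
    norm_num
  exact ep_scale i (j' + 1) _ _ h4 (by rw [← h2, ← h3])

end Pool.Agent.Q87.SFPer
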