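import Mathlib
import Pool.Agent.Q87.SF.Per

/-! Project SF (helper87): SF-UPX. -/

set_option autoImplicit false

namespace Pool.Agent.Q87.SFUpx

open Filter Topology Metric Pool.Agent.Q87.SF Pool.Agent.Q87.SFPer

lemma prod_three (F : ℕ → ℝ) (M : ℕ) :
    ∏ a ∈ Finset.range (3 * M), F a =
      ∏ m ∈ Finset.range M, (F (3 * m) * F (3 * m + 1) * F (3 * m + 2)) := by
  induction M with
  | zero => simp
  | succ M ih =>
    have : 3 * (M + 1) = 3 * M + 1 + 1 + 1 := by ring
    rw [this, Finset.prod_range_succ, Finset.prod_range_succ, Finset.prod_range_succ, ih,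
      Finset.prod_range_succ]
    ring

lemma sib (t s : ℂ) : ‖t - Complex.I ^ 1 * s‖ * ‖t - Complex.I ^ 2 * s‖ *
    ‖t - Complex.I ^ 3 * s‖ = ‖t ^ 3 + t ^ 2 * s + t * s ^ 2 + s ^ 3‖ := by
  rw [← norm_mul, ← norm_mul]
  congr 1
  rw [Complex.I_pow_three, Complex.I_sq, pow_one]
  have h := Complex.I_sq
  linear_combination (-(t * s ^ 2) - s ^ 3) * h

/-- the positive part of the distance -/
noncomputable def g (i j n m : ℕ) : ℝ := by
  classical
  exact if ee (Y i n) = ee (Y j m) then 1 else ‖ee (Y i n) - ee (Y j m)‖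

lemma g_pos (i j n m : ℕ) : 0 < g i j n m := by
  unfold g
  split_ifs with h
  · exact one_pos
  · exact norm_pos_iff.mpr (sub_ne_zero.mpr h)

lemma g_per1 (i j n m : ℕ) : g i j (n + 2 ^ i) m = g i j n m := by
  unfold g; rw [Y_per]

lemma g_per2 (i j n m : ℕ) : g i j n (m + 2 ^ j) = g i j n m := by
  unfold g; rw [Y_per]

lemma eq_fwd {i j n m : ℕ} (h : ee (Y i n) = ee (Y j m)) (k : ℕ) :
    ee (Y i (n + k)) = ee (Y j (m + k)) := by
  induction k with
  | zero => exact h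
  | succ k ih =>
    have h1 := ee_step i (n + k)
    have h2 := ee_step j (m + k)
    rw [ih] at h1
    exact h1.symm.trans h2

lemma eq_shift (i j n m : ℕ) : ee (Y i (n + 1)) = ee (Y j (m + 1)) ↔ ee (Y i n) = ee (Y j m) := by
  constructor
  · intro h
    have h1 := eq_fwd h (2 ^ j * 2 ^ i - 1)
    have hpos : 1 ≤ 2 ^ j * 2 ^ i := Nat.one_le_iff_ne_zero.mpr (by positivity)
    have e1 : n + 1 + (2 ^ j * 2 ^ i - 1) = n + 2 ^ j * 2 ^ i := by omega
    have e2 : m + 1 + (2 ^ j * 2 ^ i - 1) = m + 2 ^ i * 2 ^ j := by rw [mul_comm (2 ^ i)]; omega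
    rw [e1, e2] at h1
    have p1 : Function.Periodic (Y i) (2 ^ i) := Y_per i
    have p2 : Function.Periodic (Y j) (2 ^ j) := Y_per j
    have q1 := p1.nat_mul (2 ^ j) n
    have q2 := p2.nat_mul (2 ^ i) m
    simp only [Nat.cast_id] at q1 q2
    rwa [q1, q2] at h1
  · intro h
    exact eq_fwd h 1

lemma shift_prod (P : ℕ) (h : ℕ → ℝ) (hh : ∀ n, 0 < h n) (hp : ∀ n, h (n + P) = h n) :
    ∏ n ∈ Finset.range P, h (n + 1) = ∏ n ∈ Finset.range P, h n := by
  have h1 := Finset.prod_range_succ h P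
  rw [Finset.prod_range_succ'] at h1
  have h2 : h P = h 0 := by simpa using hp 0
  rw [h2] at h1
  exact mul_right_cancel₀ (hh 0).ne' h1

lemma inner_eq (i j n m : ℕ) : ‖ee (Y i n) - Complex.I ^ 1 * ee (Y j m)‖ *
    ‖ee (Y i n) - Complex.I ^ 2 * ee (Y j m)‖ * ‖ee (Y i n) - Complex.I ^ 3 * ee (Y j m)‖ * g i j n m =
    (by classical exact (if ee (Y i n) = ee (Y j m) then (4 : ℝ) else 1)) *
      g i j (n + 1) (m + 1) := by
  rw [sib]
  unfold g
  by_cases h : ee (Y i n) = ee (Y j m)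
  · rw [if_pos h, if_pos h, if_pos ((eq_shift i j n m).mpr h), h, mul_one, mul_one]
    have h1 : ee (Y j m) ^ 3 + ee (Y j m) ^ 2 * ee (Y j m) + ee (Y j m) * ee (Y j m) ^ 2 +
        ee (Y j m) ^ 3 = 4 * ee (Y j m) ^ 3 := by ring
    rw [h1, norm_mul, norm_pow, ee_norm]
    simp
  · rw [if_neg h, if_neg h, if_neg (fun h' => h ((eq_shift i j n m).mp h')), one_mul,
      ← ee_step, ← ee_step, ← norm_mul]
    congr 1
    ring

theorem upx : S_UPX := by
  classical
  intro i j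
  have h1 : ∀ n, ∏ a ∈ Finset.range (mm j), ‖ee (Y i n) - zt j a‖ =
      ∏ m ∈ Finset.range (2 ^ j), (‖ee (Y i n) - Complex.I ^ 1 * ee (Y j m)‖ *
        ‖ee (Y i n) - Complex.I ^ 2 * ee (Y j m)‖ * ‖ee (Y i n) - Complex.I ^ 3 * ee (Y j m)‖) := by
    intro n
    unfold mm
    rw [prod_three]
    apply Finset.prod_congr rfl
    intro m _
    unfold zt
    have a1 : (3 * m) % 3 = 0 := by omega
    have a2 : (3 * m + 1) % 3 = 1 := by omega
    have a3 : (3 * m + 2) % 3 = 2 := by omega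
    have b1 : (3 * m) / 3 = m := by omega
    have b2 : (3 * m + 1) / 3 = m := by omega
    have b3 : (3 * m + 2) / 3 = m := by omega
    rw [a1, a2, a3, b1, b2, b3]
  have hG : ∏ n ∈ Finset.range (2 ^ i), ∏ m ∈ Finset.range (2 ^ j), g i j (n + 1) (m + 1) =
      ∏ n ∈ Finset.range (2 ^ i), ∏ m ∈ Finset.range (2 ^ j), g i j n m := by
    have e1 : ∀ n, ∏ m ∈ Finset.range (2 ^ j), g i j (n + 1) (m + 1) =
        ∏ m ∈ Finset.range (2 ^ j), g i j (n + 1) m := fun n =>
      shift_prod (2 ^ j) (fun m => g i j (n + 1) m) (fun m => g_pos _ _ _ _) (fun m => g_per2 _ _ _ _)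
    rw [Finset.prod_congr rfl fun n _ => e1 n]
    exact shift_prod (2 ^ i) (fun n => ∏ m ∈ Finset.range (2 ^ j), g i j n m)
      (fun n => Finset.prod_pos fun m _ => g_pos _ _ _ _)
      (fun n => Finset.prod_congr rfl fun m _ => g_per1 _ _ _ _)
  have hGpos : 0 < ∏ n ∈ Finset.range (2 ^ i), ∏ m ∈ Finset.range (2 ^ j), g i j n m :=
    Finset.prod_pos fun n _ => Finset.prod_pos fun m _ => g_pos _ _ _ _
  have h2 : ∏ n ∈ Finset.range (2 ^ i), ∏ m ∈ Finset.range (2 ^ j),
      (‖ee (Y i n) - Complex.I ^ 1 * ee (Y j m)‖ *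
        ‖ee (Y i n) - Complex.I ^ 2 * ee (Y j m)‖ * ‖ee (Y i n) - Complex.I ^ 3 * ee (Y j m)‖) =
      ∏ n ∈ Finset.range (2 ^ i), ∏ m ∈ Finset.range (2 ^ j),
        (if ee (Y i n) = ee (Y j m) then (4 : ℝ) else 1) := by
    apply mul_right_cancel₀ hGpos.ne'
    rw [← Finset.prod_mul_distrib]
    conv_rhs => rw [← hG]
    rw [← Finset.prod_mul_distrib]
    apply Finset.prod_congr rfl
    intro n _
    rw [← Finset.prod_mul_distrib, ← Finset.prod_mul_distrib]
    apply Finset.prod_congr rfl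
    intro m _
    have := inner_eq i j n m
    convert this using 2
  rw [Finset.prod_congr rfl fun n _ => h1 n, h2]
  by_cases hij : i = j
  · subst hij
    rw [if_pos rfl, ← Finset.prod_product', Finset.prod_ite, Finset.prod_const_one, mul_one,
      Finset.prod_const]
    congr 1
  · rw [if_neg hij]
    apply Finset.prod_eq_one
    intro n _
    apply Finset.prod_eq_one
    intro m _
    rw [if_neg]
    rcases lt_or_gt_of_ne hij with h | h
    · exact np i j n m h
    · exact fun h' => np j i m n h h'.symm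

end Pool.Agent.Q87.SFUpx
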